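import Pool.Agent.W903.LT.Bnd

/-!
# The whole sampler is polynomial-time computable: `S_samp`
-/

namespace Pool.Agent.NPC.LT.Samp

open Pool.Agent.W955.LT Pool.Agent.NPC.W903

section Main

variable {k : Kind} {PN PP : Polynomial ℕ}

/-- Inputs for the computation of a row of pools. -/
abbrev InP := Ctx × List (Option Code) × List Bool

/-- The domain. -/
def DP (k : Kind) (a : InP) : Prop :=
  1 ≤ a.1.1.length ∧ a.2.1.length ≤ 2 ∧ ∀ o, some o ∈ a.2.1 → VP k a.1.1.length o

theorem n_le_sz (a : InP) : a.1.1.length ≤ sz a := by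
  have h1 := length_lt_sz a.1.1
  have h2 : sz a = sz a.1 + sz a.2 + 1 := sz_pair _ _
  have h3 : sz a.1 = sz a.1.1 + sz a.1.2 + 1 := sz_pair _ _
  omega

theorem two_pow_le (hlev : S_lev) {n j : ℕ} (hn : 1 ≤ n) (hj : j ≤ 2 * lev n) :
    2 ^ j ≤ n ^ 12 := by
  calc 2 ^ j ≤ 2 ^ (2 * lev n) := Nat.pow_le_pow_right (by norm_num) hj
    _ = (2 ^ lev n) ^ 2 := by rw [mul_comm, pow_mul]
    _ ≤ (n ^ 6) ^ 2 := Nat.pow_le_pow_left (hlev n hn) 2
    _ = n ^ 12 := by rw [← pow_mul]

/-- The bound for a row of components. -/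
noncomputable def Q1 (PP : Polynomial ℕ) : Polynomial ℕ :=
  Polynomial.C 2 * Polynomial.X ^ 12 * (PP + Polynomial.C 3) + Polynomial.C 1

/-- The bound for a pool. -/
noncomputable def Q2 (PN PP : Polynomial ℕ) : Polynomial ℕ :=
  (Polynomial.C 4 * ((PN + Polynomial.X * (Polynomial.C 1 + PN ^ 2 * Polynomial.C 360)) *
    (Polynomial.C 4 * Polynomial.X ^ 12) + Polynomial.C 1) + Polynomial.C 1) +
  ((Polynomial.X + Polynomial.C 1) * ((Polynomial.C 4 * ((PN + Polynomial.X * (Polynomial.C 1 +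
    PN ^ 2 * Polynomial.C 360)) * (Polynomial.C 4 * Polynomial.X ^ 12) + Polynomial.C 1) +
    Polynomial.C 1) + Polynomial.C 1) + Polynomial.C 1) +
  (PN * (PP + Polynomial.C 3) + Polynomial.C 1) + Polynomial.C 2

theorem Q1_eval (n : ℕ) : (Q1 PP).eval n = 2 * n ^ 12 * (PP.eval n + 3) + 1 := by
  simp [Q1]

theorem Q2_eval (n : ℕ) : (Q2 PN PP).eval n =
    (4 * ((PN.eval n + n * (1 + PN.eval n ^ 2 * 360)) * (4 * n ^ 12) + 1) + 1) +
      ((n + 1) * ((4 * ((PN.eval n + n * (1 + PN.eval n ^ 2 * 360)) * (4 * n ^ 12) + 1) + 1) + 1)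
        + 1) + (PN.eval n * (PP.eval n + 3) + 1) + 2 := by
  simp [Q2]

theorem sz_row (hPP : ∀ k c, validC k c = true → sz c ≤ PP.eval c.1.length) {n : ℕ}
    {L : List (Option Code)} (hL : L.length ≤ 2 * n ^ 12) (h : ∀ o, some o ∈ L → VP k n o) :
    sz L ≤ (Q1 PP).eval n := by
  refine (sz_opts hPP L h).trans ?_
  rw [Q1_eval]
  have := Nat.mul_le_mul_right (PP.eval n + 3) hL
  omega

theorem on_lv (hlev : S_lev) (hkids : Poly (fun c : Code => kidsC k c))
    (hPP : ∀ k c, validC k c = true → sz c ≤ PP.eval c.1.length) (hc2 : S_code2) (hrun : S_run)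
    (hinv : S_inv) (hPN : ∀ m, 1 ≤ PN.eval m) :
    On (DP k) (fun a : InP => (lvStep (sy k PN a.1))^[2 * lev a.1.1.length] ([], a.2.1)) := by
  have hn : UPoly (fun a : InP => 2 * lev a.1.1.length) :=
    (UPoly.const 2).mul (uPoly_lev (UPoly.length (Poly.fst (Poly.fst Poly.id))))
  refine On.iterate (E := fun _ => True) (F := fun a st => lvStep (sy k PN a.1) st) hn
    ((Poly.pair (Poly.const _) (Poly.fst (Poly.snd Poly.id))).on _)
    (Poly.on ?_ _) (Polynomial.C 2 * Polynomial.X * (Q1 PP + Polynomial.C 1) + Polynomial.C 1 +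
      Q1 PP + Polynomial.C 1)
    (fun a m st => ∃ j, j + m = 2 * lev a.1.1.length ∧
      st = (lvStep (sy k PN a.1))^[j] ([], a.2.1)) ?_ ?_
  · exact Poly.pair (Poly.cons (Poly.snd (Poly.snd Poly.id)) (Poly.fst (Poly.snd Poly.id)))
      (poly_kdL (PN := PN) (c := fun q : InP × List (List (Option Code)) × List (Option Code) =>
        q.1.1) hkids (Poly.snd (Poly.snd Poly.id)))
  · intro a _
    exact ⟨0, by simp, rfl⟩
  · rintro a m st ⟨h1, h2, h3⟩ ⟨j, hj, rfl⟩
    refine ⟨trivial, ⟨j + 1, by omega, ?_⟩, ?_⟩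
    · rw [Function.iterate_succ_apply']
    · have hk := (sys_inv hc2 hrun hinv k h1 (hPN a.1.1.length) 0).1
      obtain ⟨i1, i2, i3, i4⟩ := lv_inv (sy k PN a.1) hk h3 (j + 1)
      have hp := two_pow_le (j := j + 1) hlev h1 (by omega)
      have hlen : 2 ^ (j + 1) * a.2.1.length ≤ 2 * a.1.1.length ^ 12 := by
        calc 2 ^ (j + 1) * a.2.1.length ≤ a.1.1.length ^ 12 * 2 := Nat.mul_le_mul hp h2
          _ = _ := mul_comm _ _
      have hgo : lvStep (sy k PN a.1) ((lvStep (sy k PN a.1))^[j] ([], a.2.1)) =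
        (lvStep (sy k PN a.1))^[j + 1] ([], a.2.1) := (Function.iterate_succ_apply' _ _ _).symm
      change sz (lvStep (sy k PN a.1) ((lvStep (sy k PN a.1))^[j] ([], a.2.1))) ≤ _
      rw [hgo]
      have e1 := sz_row hPP (i1.trans_le hlen) i2
      have e2 := sz_le_length_mul ((lvStep (sy k PN a.1))^[j + 1] ([], a.2.1)).1 _
        fun L hL => sz_row hPP ((i4 L hL).1.trans hlen) (i4 L hL).2
      rw [i3] at e2
      have e3 : j + 1 ≤ 2 * a.1.1.length := by
        have := lev_le a.1.1.length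
        omega
      have e4 := Nat.mul_le_mul_right ((Q1 PP).eval a.1.1.length + 1) e3
      have e5 : sz ((lvStep (sy k PN a.1))^[j + 1] ([], a.2.1)) =
        sz ((lvStep (sy k PN a.1))^[j + 1] ([], a.2.1)).1 +
        sz ((lvStep (sy k PN a.1))^[j + 1] ([], a.2.1)).2 + 1 := sz_pair _ _
      refine le_trans ?_ (eval_mono _ (n_le_sz a))
      simp only [Polynomial.eval_add, Polynomial.eval_mul, Polynomial.eval_C, Polynomial.eval_X]
      omega

theorem on_pool (hlev : S_lev) (hkids : Poly (fun c : Code => kidsC k c))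
    (hcand : Poly (fun p : Code × Code => candC k p.1 p.2))
    (hPP : ∀ k c, validC k c = true → sz c ≤ PP.eval c.1.length) (hc2 : S_code2) (hrun : S_run)
    (hinv : S_inv) (hPN : ∀ m, 1 ≤ PN.eval m) :
    On (DP k) (fun a : InP =>
      ((sy k PN a.1).poolL (2 * lev a.1.1.length) a.2.1).run a.1.2.length a.2.2) := by
  have hlv := on_lv (PN := PN) hlev hkids hPP hc2 hrun hinv hPN
  have hs : On (DP k) (fun a : InP => ((((lvStep (sy k PN a.1))^[2 * lev a.1.1.length]
      ([], a.2.1)).2.map (fun _ => (sy k PN a.1).base), a.2.2) : List (Pl Code) × List Bool)) := by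
    have h1 : Poly (fun q : InP × (List (List (Option Code)) × List (Option Code)) =>
        ((q.2.2.map (fun _ => (sy k PN q.1.1).base), q.1.2.2) : List (Pl Code) × List Bool)) :=
      Poly.pair (Poly.map (F := fun (q : InP × (List (List (Option Code)) × List (Option Code)))
        (_ : Option Code) => (sy k PN q.1.1).base) (Poly.snd (Poly.snd Poly.id))
        (poly_base (PN := PN) (c := fun q : (InP × (List (List (Option Code)) ×
          List (Option Code))) × Option Code => q.1.1.1)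
          (Poly.fst (Poly.fst (Poly.fst Poly.id))))) (Poly.snd (Poly.snd (Poly.fst Poly.id)))
    exact On.app h1 (On.pair (Poly.id.on _) hlv)
  have hF : Poly (fun q : InP × (List (Pl Code) × List Bool) × List (Option Code) =>
      lvFold (sy k PN q.1.1) q.1.1.2.length q.2.1 q.2.2) :=
    poly_combL (PN := PN) hcand (c := fun q : InP × (List (Pl Code) × List Bool) ×
      List (Option Code) => q.1.1) (Poly.fst (Poly.fst Poly.id))
      (Poly.fst (Poly.fst (Poly.snd Poly.id))) (Poly.snd (Poly.snd Poly.id))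
      (Poly.snd (Poly.fst (Poly.snd Poly.id)))
  refine (On.foldl (E := fun _ => True) (F := fun a => lvFold (sy k PN a.1) a.1.2.length)
    (On.app (Poly.fst Poly.id) hlv) hs (hF.on _)
    (Polynomial.C 2 * Polynomial.X ^ 12 * (Q2 PN PP + Polynomial.C 1) + Polynomial.C 2 +
      Polynomial.X)
    (fun a ds st => ∃ i j, i + j = 2 * lev a.1.1.length ∧
      ds = ((lvStep (sy k PN a.1))^[j] ([], a.2.1)).1 ∧
      st = ((sy k PN a.1).poolL i ((lvStep (sy k PN a.1))^[j] ([], a.2.1)).2).run
        a.1.2.length a.2.2) ?_ ?_).congr fun a _ => ?_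
  · intro a _
    exact ⟨0, 2 * lev a.1.1.length, by simp, rfl, rfl⟩
  · rintro a b ds st ⟨h1, h2, h3⟩ ⟨i, j, hij, hds, rfl⟩
    cases j with
    | zero => simp at hds
    | succ j =>
      rw [Function.iterate_succ_apply'] at hds
      have hds' : b :: ds = ((lvStep (sy k PN a.1))^[j] ([], a.2.1)).2 ::
        ((lvStep (sy k PN a.1))^[j] ([], a.2.1)).1 := hds
      rw [List.cons.injEq] at hds'
      obtain ⟨rfl, rfl⟩ := hds'
      have hnew : lvFold (sy k PN a.1) a.1.2.length (((sy k PN a.1).poolL i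
          ((lvStep (sy k PN a.1))^[j + 1] ([], a.2.1)).2).run a.1.2.length a.2.2)
          ((lvStep (sy k PN a.1))^[j] ([], a.2.1)).2 =
          ((sy k PN a.1).poolL (i + 1) ((lvStep (sy k PN a.1))^[j] ([], a.2.1)).2).run
            a.1.2.length a.2.2 := by
        rw [Sys.poolL, run_bind, Function.iterate_succ_apply']
        rfl
      refine ⟨trivial, ⟨i + 1, j, by omega, rfl, hnew⟩, ?_⟩
      rw [hnew]
      obtain ⟨hk, hp, -⟩ := sys_inv hc2 hrun hinv k h1 (hPN a.1.1.length) a.1.2.length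
      obtain ⟨i1, i2, -, -⟩ := lv_inv (sy k PN a.1) hk h3 j
      obtain ⟨p1, p2⟩ := hp (i + 1) ((lvStep (sy k PN a.1))^[j] ([], a.2.1)).2 a.2.2 i2
      have hpow := two_pow_le (j := j) hlev h1 (by omega)
      have hlen : 2 ^ j * a.2.1.length ≤ 2 * a.1.1.length ^ 12 := by
        calc 2 ^ j * a.2.1.length ≤ a.1.1.length ^ 12 * 2 := Nat.mul_le_mul hpow h2
          _ = _ := mul_comm _ _
      have hK : 2 ^ (i + 1 + 1) - 1 ≤ 4 * a.1.1.length ^ 12 := by
        have := two_pow_le (j := i + 1) hlev h1 (by omega)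
        have h4 : 2 ^ (i + 1 + 1) = 2 * 2 ^ (i + 1) := by rw [pow_succ]; ring
        omega
      have hG : 1 ≤ PN.eval a.1.1.length + a.1.1.length * (1 + PN.eval a.1.1.length ^ 2 * 360) := by
        have := hPN a.1.1.length
        omega
      have e2 := sz_run_snd a.1.2.length ((sy k PN a.1).poolL (i + 1)
        ((lvStep (sy k PN a.1))^[j] ([], a.2.1)).2) a.2.2
      have e3 : sz a.2.2 ≤ sz a := by
        have h4 : sz a = sz a.1 + sz a.2 + 1 := sz_pair _ _
        have h5 : sz a.2 = sz a.2.1 + sz a.2.2 + 1 := sz_pair _ _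
        omega
      have key : ∀ r : List (Pl Code) × List Bool,
          r.1.length = ((lvStep (sy k PN a.1))^[j] ([], a.2.1)).2.length →
          (∀ p ∈ r.1, (sysC k a.1.1.length (PN.eval a.1.1.length)).PlOk (VP k a.1.1.length)
            ((PN.eval a.1.1.length + a.1.1.length * (1 + PN.eval a.1.1.length ^ 2 * 360)) ^
              (2 ^ (i + 1 + 1) - 1)) p) → sz r.2 ≤ sz a.2.2 →
          sz r ≤ (Polynomial.C 2 * Polynomial.X ^ 12 * (Q2 PN PP + Polynomial.C 1) +
            Polynomial.C 2 + Polynomial.X).eval (sz a) := by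
        intro r hr1 hr2 hr3
        have e1 := sz_le_length_mul r.1 ((Q2 PN PP).eval a.1.1.length) fun p hp => by
          rw [Q2_eval]
          exact sz_pool hPP (Nat.pow_le_pow_right hG hK) (hr2 p hp)
        have e4 : sz r = sz r.1 + sz r.2 + 1 := sz_pair _ _
        rw [e4]
        have e5 : (2 * a.1.1.length ^ 12 * ((Q2 PN PP).eval a.1.1.length + 1) + 1 : ℕ) ≤
            2 * (sz a) ^ 12 * ((Q2 PN PP).eval (sz a) + 1) + 1 := by
          gcongr
          · exact n_le_sz a
          · exact eval_mono _ (n_le_sz a)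
        have e6 : r.1.length * ((Q2 PN PP).eval a.1.1.length + 1) ≤
            2 * a.1.1.length ^ 12 * ((Q2 PN PP).eval a.1.1.length + 1) := by
          apply Nat.mul_le_mul_right
          rw [hr1, i1]
          exact hlen
        simp only [Polynomial.eval_add, Polynomial.eval_mul, Polynomial.eval_C,
          Polynomial.eval_X, Polynomial.eval_pow]
        omega
      exact key _ p1 p2 e2
  · exact poolL_levels _ _ _ _ _

/-! ### One step of the chain -/

theorem poly_ts (hcand : Poly (fun p : Code × Code => candC k p.1 p.2)) {α : Type} [TEnc α]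
    {c : α → Ctx} {p1 p2 : α → Pl Code} (hc : Poly c) (hp1 : Poly p1) (hp2 : Poly p2) :
    Poly (fun a => (sy k PN (c a)).ts (p1 a) (p2 a)) := by
  refine Poly.filter (p := fun _ q => decide (q.2.2 = [[]]))
    (poly_cs (PN := PN) (c := c) hcand hp1 hp2 (uPoly_n hc).toPoly) ?_
  exact Poly.decide_eq (Poly.snd (Poly.snd (Poly.snd Poly.id))) (Poly.const _)

/-- The end of a step. -/
def post (S : Sys Code) (B : ℕ) (x : Code) (r : List (Pl Code) × List Bool) :
    Code × List Bool :=
  match r.1 with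
  | p1 :: p2 :: _ => (((Sys.pick (S.ts p1 p2)).run B r.2).1.getD x,
      ((Sys.pick (S.ts p1 p2)).run B r.2).2)
  | _ => (x, r.2)

theorem stepL_run (S : Sys Code) (R B : ℕ) (x : Code) (t : List Bool) :
    (S.stepL R x).run B t = post S B x ((S.poolL R [(S.kids x).1, (S.kids x).2]).run B t) := by
  rw [Sys.stepL, run_bind]
  unfold post
  rcases ((S.poolL R [(S.kids x).1, (S.kids x).2]).run B t).1 with _ | ⟨p1, _ | ⟨p2, ps⟩⟩
  · rfl
  · rfl
  · simp only [run_bind, run_ret]

theorem poly_post (hcand : Poly (fun p : Code × Code => candC k p.1 p.2)) :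
    Poly (fun q : (Ctx × Code × List Bool) × (List (Pl Code) × List Bool) =>
      post (sy k PN q.1.1) q.1.1.2.length q.1.2.1 q.2) := by
  have h1 : Poly (fun q : (((Ctx × Code × List Bool) × (List (Pl Code) × List Bool)) ×
      Pl Code × List (Pl Code)) × Pl Code × List (Pl Code) =>
      ((((Sys.pick ((sy k PN q.1.1.1.1).ts q.1.2.1 q.2.1)).run q.1.1.1.1.2.length
        q.1.1.2.2).1.getD q.1.1.1.2.1, ((Sys.pick ((sy k PN q.1.1.1.1).ts q.1.2.1 q.2.1)).run
        q.1.1.1.1.2.length q.1.1.2.2).2) : Code × List Bool)) := by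
    have hc : Poly (fun q : (((Ctx × Code × List Bool) × (List (Pl Code) × List Bool)) ×
      Pl Code × List (Pl Code)) × Pl Code × List (Pl Code) => q.1.1.1.1) :=
      Poly.fst (Poly.fst (Poly.fst (Poly.fst Poly.id)))
    have h2 := poly_pick (uPoly_B hc) (poly_ts (PN := PN) hcand hc
      (Poly.fst (Poly.snd (Poly.fst Poly.id))) (Poly.fst (Poly.snd Poly.id)))
      (Poly.snd (Poly.snd (Poly.fst (Poly.fst Poly.id))))
    exact Poly.pair (Poly.optGetD (Poly.fst h2)
      (Poly.fst (Poly.snd (Poly.fst (Poly.fst (Poly.fst Poly.id)))))) (Poly.snd h2)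
  have h0 : Poly (fun q : (Ctx × Code × List Bool) × (List (Pl Code) × List Bool) =>
      ((q.1.2.1, q.2.2) : Code × List Bool)) :=
    Poly.pair (Poly.fst (Poly.snd (Poly.fst Poly.id))) (Poly.snd (Poly.snd Poly.id))
  have h3 := Poly.listCases
    (l := fun q : (Ctx × Code × List Bool) × (List (Pl Code) × List Bool) => q.2.1)
    (g := fun q => ((q.1.2.1, q.2.2) : Code × List Bool))
    (h := fun q p1 ps1 => match ps1 with
      | [] => ((q.1.2.1, q.2.2) : Code × List Bool)
      | p2 :: _ => ((((Sys.pick ((sy k PN q.1.1).ts p1 p2)).run q.1.1.2.length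
        q.2.2).1.getD q.1.2.1, ((Sys.pick ((sy k PN q.1.1).ts p1 p2)).run
        q.1.1.2.length q.2.2).2) : Code × List Bool))
    (Poly.fst (Poly.snd Poly.id)) h0
    ((Poly.listCases (l := fun q : ((Ctx × Code × List Bool) × (List (Pl Code) × List Bool)) ×
        Pl Code × List (Pl Code) => q.2.2)
      (g := fun q => ((q.1.1.2.1, q.1.2.2) : Code × List Bool))
      (h := fun q p2 _ => ((((Sys.pick ((sy k PN q.1.1.1).ts q.2.1 p2)).run q.1.1.1.2.length
        q.1.2.2).1.getD q.1.1.2.1, ((Sys.pick ((sy k PN q.1.1.1).ts q.2.1 p2)).run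
        q.1.1.1.2.length q.1.2.2).2) : Code × List Bool))
      (Poly.snd (Poly.snd Poly.id)) (h0.comp (Poly.fst Poly.id)) h1).congr fun q => by
        rcases q.2.2 with _ | ⟨p2, ps⟩ <;> rfl)
  refine h3.congr fun q => ?_
  unfold post
  rcases q.2.1 with _ | ⟨p1, _ | ⟨p2, ps⟩⟩ <;> rfl

/-- The domain of the step. -/
def DS (k : Kind) (a : Ctx × Code × List Bool) : Prop :=
  1 ≤ a.1.1.length ∧ VP k a.1.1.length a.2.1

theorem on_step (hlev : S_lev) (hkids : Poly (fun c : Code => kidsC k c))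
    (hcand : Poly (fun p : Code × Code => candC k p.1 p.2))
    (hPP : ∀ k c, validC k c = true → sz c ≤ PP.eval c.1.length) (hc2 : S_code2) (hrun : S_run)
    (hinv : S_inv) (hPN : ∀ m, 1 ≤ PN.eval m) :
    On (DS k) (fun a : Ctx × Code × List Bool =>
      ((sy k PN a.1).stepL (2 * lev a.1.1.length) a.2.1).run a.1.2.length a.2.2) := by
  have h1 : Poly (fun a : Ctx × Code × List Bool =>
      ((a.1, [(kidsC k a.2.1).1, (kidsC k a.2.1).2], a.2.2) : InP)) := by
    have h2 : Poly (fun a : Ctx × Code × List Bool => kidsC k a.2.1) :=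
      hkids.comp (Poly.fst (Poly.snd Poly.id))
    exact Poly.pair (Poly.fst Poly.id) (Poly.pair (Poly.cons (Poly.fst h2) (Poly.cons
      (Poly.snd h2) (Poly.const _))) (Poly.snd (Poly.snd Poly.id)))
  have h2 := On.comp (D := DS k) (on_pool (PN := PN) hlev hkids hcand hPP hc2 hrun hinv hPN)
    (h1.on _) (by
      rintro a ⟨ha, hx⟩
      have hk := (sys_inv hc2 hrun hinv k ha (hPN a.1.1.length) 0).1
      refine ⟨ha, le_rfl, fun o ho => ?_⟩
      simp only [List.mem_cons, List.not_mem_nil, or_false] at ho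
      exact hk _ hx o (ho.imp Eq.symm Eq.symm))
  refine (On.app (poly_post (PN := PN) hcand) (On.pair (Poly.id.on _) h2)).congr fun a _ => ?_
  rw [stepL_run]
  rfl

/-! ### The chain -/

theorem chainL_run (S : Sys Code) (R B : ℕ) : ∀ (J : ℕ) (x : Code) (t : List Bool),
    (S.chainL R J x).run B t =
      (fun s : Code × List Bool => (S.stepL R s.1).run B s.2)^[J] (x, t)
  | 0, x, t => rfl
  | J + 1, x, t => by
    rw [Sys.chainL, run_bind, chainL_run S R B J, Function.iterate_succ_apply]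

theorem lineC_valid (hc1 : S_code1) (k : Kind) {n : ℕ} (hn : 1 ≤ n) : VP k n (lineC k n) := by
  obtain ⟨-, -, h3, -, h5, h6, -, -⟩ := hc1
  obtain ⟨A, hA, hc, he⟩ := h6 k n hn
  have hok : Ok k (A, {[]}) :=
    ⟨hA, by simpa using hA.nil, by simp, by simp⟩
  refine ⟨(h3 k _).2 ⟨_, hok, he⟩, ?_⟩
  obtain ⟨-, -, h, -⟩ := h5 k _ hok
  rw [← he, h, ← hc]

/-- **The whole sampler is polynomial-time computable.** -/
theorem main_aux (hc1 : S_code1) (hc2 : S_code2) (hlev : S_lev) (hrun : S_run) (hinv : S_inv)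
    (hpc : S_polyCode) : S_samp := by
  obtain ⟨-, hkids, hcand, hline, -, PP, hPP⟩ := hpc
  intro k PN PJ PB hPN
  have hctx : Poly (fun a : (List Unit × List Unit) × List Bool =>
      ((a.1.1, List.replicate (PB.eval (a.1.1.length + a.1.2.length)) ()) : Ctx)) :=
    Poly.pair (Poly.fst (Poly.fst Poly.id)) (UPoly.eval (UPoly.add
      (UPoly.length (Poly.fst (Poly.fst Poly.id))) (UPoly.length (Poly.snd (Poly.fst Poly.id)))) PB)
  have hJ : UPoly (fun a : (List Unit × List Unit) × List Bool => PJ.eval a.1.2.length) :=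
    UPoly.eval (UPoly.length (Poly.snd (Poly.fst Poly.id))) PJ
  have hs : Poly (fun a : (List Unit × List Unit) × List Bool =>
      ((lineC k a.1.1.length, a.2) : Code × List Bool)) :=
    Poly.pair ((hline k).comp (Poly.fst (Poly.fst Poly.id))) (Poly.snd Poly.id)
  have hstep := On.comp (D := fun q : ((List Unit × List Unit) × List Bool) × Code × List Bool =>
      1 ≤ q.1.1.1.length ∧ VP k q.1.1.1.length q.2.1)
    (on_step (PN := PN) hlev (hkids k) (hcand k) hPP hc2 hrun hinv hPN)
    ((Poly.pair (hctx.comp (Poly.fst Poly.id)) (Poly.snd Poly.id)).on _) (fun q hq => hq)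
  have hmain := On.iterate (D := fun a : (List Unit × List Unit) × List Bool =>
      1 ≤ a.1.1.length) (E := fun q => 1 ≤ q.1.1.1.length ∧ VP k q.1.1.1.length q.2.1)
    (F := fun a s => ((sy k PN (a.1.1, List.replicate (PB.eval (a.1.1.length +
      a.1.2.length)) ())).stepL (2 * lev a.1.1.length) s.1).run
        (List.replicate (PB.eval (a.1.1.length + a.1.2.length)) ()).length s.2)
    hJ (hs.on _) hstep (PP + Polynomial.X + Polynomial.C 1)
    (fun a _ s => VP k a.1.1.length s.1 ∧ sz s.2 ≤ sz a.2) ?_ ?_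
  · obtain ⟨g, hg, hgf⟩ := hmain
    refine ⟨fun a => (g a).1, Poly.fst hg, fun n e t hn => ?_⟩
    have h1 := hgf ((List.replicate n (), List.replicate e ()), t) (by simpa using hn)
    simp only at h1 ⊢
    rw [h1, chainL_run]
    simp only [sy, List.length_replicate]
  · intro a ha
    exact ⟨lineC_valid hc1 k ha, le_rfl⟩
  · rintro a m s ha ⟨h1, h2⟩
    have h3 := (sys_inv hc2 hrun hinv k ha (hPN a.1.1.length)
      (List.replicate (PB.eval (a.1.1.length + a.1.2.length)) ()).length).2.2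
      (2 * lev a.1.1.length) s.1 s.2 h1
    refine ⟨⟨ha, h1⟩, ⟨h3, (sz_run_snd _ _ _).trans h2⟩, ?_⟩
    have h4 := sz_run_snd (List.replicate (PB.eval (a.1.1.length + a.1.2.length)) ()).length
      ((sy k PN (a.1.1, List.replicate (PB.eval (a.1.1.length +
      a.1.2.length)) ())).stepL (2 * lev a.1.1.length) s.1) s.2
    have key : ∀ r : Code × List Bool, VP k a.1.1.length r.1 → sz r.2 ≤ sz s.2 →
        sz r ≤ (PP + Polynomial.X + Polynomial.C 1).eval (sz a) := by
      intro r hr1 hr2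
      have h5 := hPP k _ hr1.1
      have h6 := eval_mono PP hr1.2
      have e4 : sz r = sz r.1 + sz r.2 + 1 := sz_pair _ _
      have e7 : sz a = sz a.1 + sz a.2 + 1 := sz_pair _ _
      have e8 : sz a.1 = sz a.1.1 + sz a.1.2 + 1 := sz_pair _ _
      have e9 := length_lt_sz a.1.1
      have e10 := eval_mono PP (show a.1.1.length ≤ sz a by omega)
      rw [e4]
      simp only [Polynomial.eval_add, Polynomial.eval_C, Polynomial.eval_X]
      omega
    exact key _ h3 h4

/-- **The whole sampler is polynomial-time computable.** -/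
theorem main : S_trees → S_kids → S_code1 → S_code2 → S_lev → S_run → S_inv → S_polyCode →
    S_samp := fun _ _ hc1 hc2 hlev hrun hinv hpc => main_aux hc1 hc2 hlev hrun hinv hpc

end Main

end Pool.Agent.NPC.LT.Samp
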