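import Pool.Agent.W903.LT.PCode

/-!
# The functions on codes are polynomial-time computable: `S_polyCode`
-/

namespace Pool.Agent.NPC.LT.PCode

open Pool.Agent.W955.LT Pool.Agent.NPC.W903

theorem mem_words {q m : ℕ} : ∀ {w : List ℕ}, w ∈ words q m → w.length ≤ m ∧ ∀ d ∈ w, d < q := by
  induction m with
  | zero =>
    intro w h
    simp only [words, Finset.mem_singleton] at h
    subst h
    simp
  | succ m ih =>
    intro w h
    simp only [words, Finset.mem_insert, Finset.mem_image, Finset.mem_product,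
      Finset.mem_range] at h
    rcases h with rfl | ⟨⟨d, v⟩, ⟨h1, h2⟩, rfl⟩
    · simp
    · obtain ⟨h3, h4⟩ := ih h2
      refine ⟨by simpa using h3, ?_⟩
      intro e he
      rcases List.mem_cons.1 he with rfl | he
      · exact h1
      · exact h4 e he

theorem nd_le (k : Kind) : nd k ≤ 6 := by cases k <;> decide

theorem sz_word {q m : ℕ} (hq : q ≤ 6) {w : List ℕ} (h : w ∈ words q m) : sz w ≤ m * 14 + 1 := by
  obtain ⟨h1, h2⟩ := mem_words h
  have h3 := sz_le_length_mul w 13 fun d hd => by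
    have h4 := sz_nat_le d
    have h5 : d.size ≤ 3 := Nat.size_le.2 (by have := h2 d hd; omega)
    omega
  have := Nat.mul_le_mul_right (13 + 1) h1
  omega

theorem size_bound (ht : S_trees) (hc1 : S_code1) :
    ∃ P : Polynomial ℕ, ∀ k c, validC k c = true → sz c ≤ P.eval c.1.length := by
  obtain ⟨-, -, h3, -, h5, -, -, -⟩ := hc1
  refine ⟨(Polynomial.X * (Polynomial.X * Polynomial.C 14 + Polynomial.C 2) + Polynomial.C 1) +
    (Polynomial.C 15 * (Polynomial.X * Polynomial.C 14 + Polynomial.C 2) + Polynomial.C 1) +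
    Polynomial.C 1, fun k c hc => ?_⟩
  obtain ⟨o, ho, rfl⟩ := (h3 k c).1 hc
  obtain ⟨e1, e2, e3, e4⟩ := h5 k o ho
  have hsub : o.1 ⊆ words (nd k) o.1.card := by
    have := (ht.1 k o.1.card o.1).2 ⟨ho.tr, rfl⟩
    unfold trees at this
    classical
    have h7 := Finset.filter_subset _ _ this
    rwa [Finset.mem_powerset] at h7
  have f1 : ∀ w ∈ (enc o).1, sz w ≤ o.1.card * 14 + 1 := fun w hw =>
    sz_word (nd_le k) (hsub (by rw [← e1, List.mem_toFinset]; exact hw))
  have f2 : ∀ w ∈ (enc o).2, sz w ≤ o.1.card * 14 + 1 := fun w hw =>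
    sz_word (nd_le k) (hsub (ho.sub (by rw [← e2, List.mem_toFinset]; exact hw)))
  have g1 := sz_le_length_mul _ _ f1
  have g2 := sz_le_length_mul _ _ f2
  have h6 : (enc o).2.length ≤ 15 := e4.trans_le ho.card
  have g3 := Nat.mul_le_mul_right (o.1.card * 14 + 1 + 1) h6
  have e5 : sz (enc o) = sz (enc o).1 + sz (enc o).2 + 1 := sz_pair _ _
  rw [e5, e3]
  rw [e3] at g1
  simp only [Polynomial.eval_add, Polynomial.eval_mul, Polynomial.eval_C, Polynomial.eval_X]
  have e6 : o.1.card * 14 + 1 + 1 = o.1.card * 14 + 2 := rfl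
  rw [e6] at g1 g2 g3
  omega

/-- **The functions on codes are polynomial-time computable.** -/
theorem main : S_trees → S_code1 → S_polyCode := fun ht hc1 =>
  ⟨fun k => poly_validC k Poly.id, fun k => poly_kidsC k Poly.id,
    fun k => poly_candC k (Poly.fst Poly.id) (Poly.snd Poly.id), poly_lineC,
    fun k => poly_edgesC k Poly.id, size_bound ht hc1⟩

end Pool.Agent.NPC.LT.PCode
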