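import Pool.Agent.W903.LT.Samp

/-!
# Size bounds for the sampler
-/

namespace Pool.Agent.NPC.LT.Samp

open Pool.Agent.W955.LT Pool.Agent.NPC.W903

/-- Valid codes of size at most `n`. -/
def VP (k : Kind) (n : ℕ) (c : Code) : Prop := validC k c = true ∧ c.1.length ≤ n

theorem sz_opts {k : Kind} {PP : Polynomial ℕ}
    (hPP : ∀ k c, validC k c = true → sz c ≤ PP.eval c.1.length) {n : ℕ}
    (l : List (Option Code)) (h : ∀ o, some o ∈ l → VP k n o) :
    sz l ≤ l.length * (PP.eval n + 3) + 1 := by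
  refine sz_le_length_mul l (PP.eval n + 2) fun a ha => ?_
  cases a with
  | none => rw [sz_none]; omega
  | some o =>
    obtain ⟨h1, h2⟩ := h o ha
    rw [sz_some]
    have h3 := hPP k o h1
    have h4 := eval_mono PP h2
    omega

theorem sz_num {m G K : ℕ} (h : m ≤ G ^ K) : sz m ≤ 4 * (G * K + 1) + 1 := by
  refine (sz_nat_le m).trans ?_
  have h1 : m.size ≤ G * K + 1 := by
    rw [Nat.size_le]
    calc m ≤ G ^ K := h
      _ ≤ (2 ^ G) ^ K := Nat.pow_le_pow_left (Nat.lt_two_pow_self).le _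
      _ = 2 ^ (G * K) := by rw [pow_mul]
      _ < 2 ^ (G * K + 1) := Nat.pow_lt_pow_right (by norm_num) (by omega)
  omega

theorem sz_pool {k : Kind} {PP : Polynomial ℕ}
    (hPP : ∀ k c, validC k c = true → sz c ≤ PP.eval c.1.length) {n N G K D : ℕ}
    {p : Pl Code} (hD : D ≤ G ^ K) (h : (sysC k n N).PlOk (VP k n) D p) :
    sz p ≤ (4 * (G * K + 1) + 1) + ((n + 1) * ((4 * (G * K + 1) + 1) + 1) + 1) +
      (N * (PP.eval n + 3) + 1) + 2 := by
  obtain ⟨h1, h2, h3, h4, h5⟩ := h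
  have e1 : sz p = sz p.1 + (sz p.2.1 + sz p.2.2 + 1) + 1 := by
    rw [← sz_pair, ← sz_pair]
  have e2 := sz_num (h1.trans hD)
  have e3 := sz_le_length_mul p.2.1 (4 * (G * K + 1) + 1) fun a ha => sz_num ((h3 a ha).trans hD)
  have e4 := sz_opts hPP p.2.2 h5
  rw [h2] at e3
  rw [h4] at e4
  change sz p.2.1 ≤ (n + 1) * _ + 1 at e3
  change sz p.2.2 ≤ N * _ + 1 at e4
  omega

/-- The consequences of the bounds for the sampler. -/
theorem sys_inv (hc2 : S_code2) (hrun : S_run) (hinv : S_inv) (k : Kind) {n N : ℕ} (hn : 1 ≤ n)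
    (hN : 1 ≤ N) (B : ℕ) :
    (∀ x, VP k n x → ∀ a, ((sysC k n N).kids x).1 = some a ∨ ((sysC k n N).kids x).2 = some a →
      VP k n a) ∧
    (∀ r xs t, (∀ o, some o ∈ xs → VP k n o) →
      (((sysC k n N).poolL r xs).run B t).1.length = xs.length ∧
      ∀ p ∈ (((sysC k n N).poolL r xs).run B t).1,
        (sysC k n N).PlOk (VP k n) ((N + n * (1 + N ^ 2 * 360)) ^ (2 ^ (r + 1) - 1)) p) ∧
    (∀ R x t, VP k n x → VP k n (((sysC k n N).stepL R x).run B t).1) := by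
  obtain ⟨c1, c2, c3, c4, c5, c6⟩ := hc2
  have hk : ∀ x, VP k n x → ∀ a, ((sysC k n N).kids x).1 = some a ∨
      ((sysC k n N).kids x).2 = some a → VP k n a := by
    intro x hx a ha
    obtain ⟨h1, h2⟩ := c6 k x a hx.1 ha
    exact ⟨h1, h2.le.trans hx.2⟩
  have hpt : VP k n (sysC k n N).pt := ⟨(c5 k).1, hn⟩
  have hcand : ∀ a b z, z ∈ (sysC k n N).cand a b → (sysC k n N).size z ≤ (sysC k n N).n →
      VP k n z := by
    intro a b z hz hs
    exact ⟨((c2 k a b z).1 hz).1, hs⟩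
  have hlen : ∀ a b, ((sysC k n N).cand a b).length ≤ 360 := fun a b => c4 k a b
  refine ⟨hk, fun r xs t hxs => ?_, fun R x t hx => ?_⟩
  · obtain ⟨h1, -⟩ := hinv Code (sysC k n N) (VP k n) 360 0 0 hn hN hpt hk hcand hlen
    exact hrun _ _ _ B t (h1 r xs hxs)
  · obtain ⟨-, h1⟩ := hinv Code (sysC k n N) (VP k n) 360 R 1 hn hN hpt hk hcand hlen
    have h2 := hrun _ _ _ B t (h1 x hx).2
    rw [Sys.chainL, run_bind] at h2
    exact h2

end Pool.Agent.NPC.LT.Samp
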