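import Pool.Agent.W903.LT.Run

/-!
# The sampler: combination of a whole level is polynomial-time (unconditionally)
-/

namespace Pool.Agent.NPC.LT.Samp

open Pool.Agent.W955.LT Pool.Agent.NPC.W903

/-! ### Accumulating folds -/

section Acc

/-- One step of accumulation. -/
def accStep {β γ σ : Type} (G : σ → β → List γ × σ) (st : List γ × σ) (b : β) : List γ × σ :=
  ((G st.2 b).1 ++ st.1, (G st.2 b).2)

variable {α β γ σ : Type} [TEnc α] [TEnc β] [TEnc γ] [TEnc σ]

theorem sz_append_le (l l' : List γ) : sz (l ++ l') ≤ sz l + sz l' := by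
  have := sz_append l l'
  omega

theorem poly_accFold {l : α → List β} {s : α → σ} {G : α → σ → β → List γ × σ} (hl : Poly l)
    (hs : Poly s) (hG : Poly (fun p : α × σ × β => G p.1 p.2.1 p.2.2))
    (hsh : ∀ a s b, sz (G a s b).2 ≤ sz s) :
    Poly (fun a => (l a).foldl (accStep (G a)) (([] : List γ), s a)) := by
  obtain ⟨r, hr⟩ := hG.sz_le
  obtain ⟨rl, hrl⟩ := hl.sz_le
  obtain ⟨rs, hrs⟩ := hs.sz_le
  have key : ∀ a (M : ℕ), (∀ s' b, sz s' ≤ sz (s a) → b ∈ l a → sz (G a s' b).1 ≤ M) →
      ∀ (l' : List β) (st : List γ × σ), (∀ b ∈ l', b ∈ l a) → sz st.2 ≤ sz (s a) →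
      sz (l'.foldl (accStep (G a)) st).1 ≤ sz st.1 + l'.length * M ∧
        sz (l'.foldl (accStep (G a)) st).2 ≤ sz (s a) := by
    intro a M hM l'
    induction l' with
    | nil => intro st _ h; exact ⟨by simp, h⟩
    | cons b l' ih =>
      intro st h1 h2
      rw [List.foldl_cons]
      obtain ⟨h3, h4⟩ := ih (accStep (G a) st b) (fun b hb => h1 b (List.mem_cons_of_mem _ hb))
        ((hsh _ _ _).trans h2)
      refine ⟨h3.trans ?_, h4⟩
      have h5 := hM st.2 b h2 (h1 b (by simp))
      have h6 : sz (accStep (G a) st b).1 ≤ sz (G a st.2 b).1 + sz st.1 := sz_append_le _ _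
      rw [List.length_cons, Nat.add_mul, Nat.one_mul]
      omega
  refine Poly.foldl (F := fun a st b => accStep (G a) st b) hl (Poly.pair (Poly.const _) hs) ?_
    (Polynomial.C 2 + rl * r.comp (Polynomial.X + rs + rl + Polynomial.C 2) + rs) ?_
  · have h1 : Poly (fun p : α × (List γ × σ) × β => G p.1 p.2.1.2 p.2.2) :=
      hG.comp (Poly.pair (Poly.fst Poly.id) (Poly.pair (Poly.snd (Poly.fst (Poly.snd Poly.id)))
        (Poly.snd (Poly.snd Poly.id))))
    exact Poly.pair (Poly.append (Poly.fst h1) (Poly.fst (Poly.fst (Poly.snd Poly.id))))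
      (Poly.snd h1)
  · intro a k hk
    have h1 : ∀ s' b, sz s' ≤ sz (s a) → b ∈ l a →
        sz (G a s' b).1 ≤ r.eval (sz a + rs.eval (sz a) + rl.eval (sz a) + 2) := by
      intro s' b hs' hb
      have h2 := hr (a, s', b)
      have h3 := sz_le_of_mem hb
      have h4 := hrl a
      have h5 := hrs a
      have h6 : sz (G a s' b) = sz (G a s' b).1 + sz (G a s' b).2 + 1 :=
        sz_pair (G a s' b).1 (G a s' b).2
      have h7 : r.eval (sz (a, s', b)) ≤ r.eval (sz a + rs.eval (sz a) + rl.eval (sz a) + 2) := by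
        apply eval_mono
        rw [sz_pair, sz_pair]
        omega
      simp only at h2
      omega
    obtain ⟨h2, h3⟩ := key a _ h1 ((l a).take k) ([], s a) (fun b hb => List.mem_of_mem_take hb)
      le_rfl
    have h4 := hrl a
    have h5 := length_lt_sz (l a)
    have h6 := hrs a
    have h7 : ((l a).take k).length ≤ rl.eval (sz a) := by
      rw [List.length_take]; omega
    have h8 := Nat.mul_le_mul_right (r.eval (sz a + rs.eval (sz a) + rl.eval (sz a) + 2)) h7
    have h9 : sz (((l a).take k).foldl (accStep (G a)) (([] : List γ), s a)) =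
      sz (((l a).take k).foldl (accStep (G a)) (([] : List γ), s a)).1 +
      sz (((l a).take k).foldl (accStep (G a)) (([] : List γ), s a)).2 + 1 := sz_pair _ _
    change sz (((l a).take k).foldl (accStep (G a)) (([] : List γ), s a)) ≤ _
    simp only [Polynomial.eval_add, Polynomial.eval_mul, Polynomial.eval_C, Polynomial.eval_comp,
      Polynomial.eval_X]
    simp only [sz_list_nil] at h2
    omega

end Acc

/-! ### Repetitions -/

/-- One repetition. -/
def repG {γ : Type} (p : Prog γ) (B : ℕ) (t : List Bool) (_ : Unit) : List γ × List Bool :=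
  ([(p.run B t).1], (p.run B t).2)

theorem rep_run {γ : Type} (p : Prog γ) (B : ℕ) : ∀ (N : ℕ) (acc : List γ) (t : List Bool),
    (List.replicate N ()).foldl (accStep (repG p B)) (acc, t) =
      (((Prog.rep N p).run B t).1.reverse ++ acc, ((Prog.rep N p).run B t).2)
  | 0, acc, t => rfl
  | N + 1, acc, t => by
    rw [List.replicate_succ, List.foldl_cons, Prog.rep, run_bind, run_bind, run_ret]
    have := rep_run p B N ((p.run B t).1 :: acc) (p.run B t).2
    have h : accStep (repG p B) (acc, t) () = ((p.run B t).1 :: acc, (p.run B t).2) := rfl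
    rw [h, this]
    simp

section Sys

variable {α : Type} [TEnc α] {k : Kind} {PN : Polynomial ℕ}

theorem poly_rep (hcand : Poly (fun p : Code × Code => candC k p.1 p.2)) {c : α → Ctx}
    {p1 p2 : α → Pl Code} {t : α → List Bool} (hc : Poly c) (hp1 : Poly p1) (hp2 : Poly p2)
    (ht : Poly t) :
    Poly (fun a => (Prog.rep (sy k PN (c a)).N ((sy k PN (c a)).particle (p1 a) (p2 a))).run
      (c a).2.length (t a)) := by
  have h1 : Poly (fun q : α × List Bool × Unit => repG ((sy k PN (c q.1)).particle (p1 q.1)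
      (p2 q.1)) (c q.1).2.length q.2.1 q.2.2) := by
    have h2 := poly_particle (PN := PN) (α := α × List Bool × Unit) (c := fun q => c q.1)
      (p1 := fun q => p1 q.1) (p2 := fun q => p2 q.1) (t := fun q => q.2.1) hcand
      (hc.comp (Poly.fst Poly.id)) (hp1.comp (Poly.fst Poly.id)) (hp2.comp (Poly.fst Poly.id))
      (Poly.fst (Poly.snd Poly.id))
    exact Poly.pair (Poly.cons (Poly.fst h2) (Poly.const _)) (Poly.snd h2)
  have h := poly_accFold (G := fun a => repG ((sy k PN (c a)).particle (p1 a) (p2 a))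
    (c a).2.length) (uPoly_N PN hc) ht h1
    (fun a s b => sz_run_snd (c a).2.length ((sy k PN (c a)).particle (p1 a) (p2 a)) s)
  refine (Poly.pair (Poly.reverse (Poly.fst h)) (Poly.snd h)).congr fun a => ?_
  simp only [rep_run, List.append_nil, List.reverse_reverse]
  rfl

/-- The run of one combination. -/
theorem comb_run (S : Sys Code) (B : ℕ) (p1 p2 : Pl Code) (x : Option Code) (t : List Bool) :
    (S.comb p1 p2 x).run B t =
      x.elim (S.mkp p1 p2 ((Prog.rep S.N (S.particle p1 p2)).run B t).1,
          ((Prog.rep S.N (S.particle p1 p2)).run B t).2)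
        fun o => (S.mkp p1 p2 (((Prog.rep S.N (S.particle p1 p2)).run B t).1.set
          (Prog.bval (((Prog.rep S.N (S.particle p1 p2)).run B t).2.take B) * (S.N - 1 + 1) /
            2 ^ B) (some o)), ((Prog.rep S.N (S.particle p1 p2)).run B t).2.drop B) := by
  rw [Sys.comb, run_bind]
  cases x with
  | none => rfl
  | some o => rfl

theorem poly_comb (hcand : Poly (fun p : Code × Code => candC k p.1 p.2)) {c : α → Ctx}
    {p1 p2 : α → Pl Code} {x : α → Option Code} {t : α → List Bool} (hc : Poly c) (hp1 : Poly p1)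
    (hp2 : Poly p2) (hx : Poly x) (ht : Poly t) :
    Poly (fun a => ((sy k PN (c a)).comb (p1 a) (p2 a) (x a)).run (c a).2.length (t a)) := by
  have h1 := poly_rep (PN := PN) hcand hc hp1 hp2 ht
  have hB := uPoly_B hc
  have h2 : Poly (fun a => Prog.bval (((Prog.rep (sy k PN (c a)).N ((sy k PN (c a)).particle (p1 a)
      (p2 a))).run (c a).2.length (t a)).2.take (c a).2.length) * ((sy k PN (c a)).N - 1 + 1) /
      2 ^ (c a).2.length) :=
    poly_draw hB (Poly.sub (uPoly_N PN hc).toPoly (Poly.const 1)) (Poly.snd h1)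
  refine (Poly.optElim (h := fun a o => ((sy k PN (c a)).mkp (p1 a) (p2 a)
      (((Prog.rep (sy k PN (c a)).N ((sy k PN (c a)).particle (p1 a) (p2 a))).run
      (c a).2.length (t a)).1.set (Prog.bval (((Prog.rep (sy k PN (c a)).N
        ((sy k PN (c a)).particle (p1 a) (p2 a))).run (c a).2.length (t a)).2.take
          (c a).2.length) * ((sy k PN (c a)).N - 1 + 1) / 2 ^ (c a).2.length) (some o)),
      ((Prog.rep (sy k PN (c a)).N ((sy k PN (c a)).particle (p1 a) (p2 a))).run
      (c a).2.length (t a)).2.drop (c a).2.length)) hx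
    (Poly.pair (poly_mkp (PN := PN) hcand hc hp1 hp2 (Poly.fst h1)) (Poly.snd h1)) ?_).congr
    fun a => (comb_run _ _ _ _ _ _).symm
  have hf : Poly (fun q : α × Code => q.1) := Poly.fst Poly.id
  refine Poly.pair (poly_mkp (PN := PN) (α := α × Code) (c := fun q => c q.1) hcand (hc.comp hf)
    (hp1.comp hf) (hp2.comp hf) (poly_listSet ((Poly.fst h1).comp hf) (h2.comp hf)
      (Poly.some (Poly.snd Poly.id)))) (poly_drop ((Poly.snd h1).comp hf) (hB.toPoly.comp hf))

/-- One step of the combination of a level. -/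
noncomputable def combG (S : Sys Code) (B : ℕ) (st : List (Pl Code) × List Bool)
    (x : Option Code) : List (Pl Code) × (List (Pl Code) × List Bool) :=
  match st.1 with
  | p1 :: p2 :: ps => ([((S.comb p1 p2 x).run B st.2).1], (ps, ((S.comb p1 p2 x).run B st.2).2))
  | _ => ([], st)

theorem combL_run (S : Sys Code) (B : ℕ) : ∀ (xs : List (Option Code)) (ps acc : List (Pl Code))
    (t : List Bool),
    (xs.foldl (accStep (combG S B)) (acc, (ps, t))).1 = ((S.combL ps xs).run B t).1.reverse ++ acc ∧
    (xs.foldl (accStep (combG S B)) (acc, (ps, t))).2.2 = ((S.combL ps xs).run B t).2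
  | [], [], acc, t => by simp [Sys.combL, run_ret]
  | [], [_], acc, t => by simp [Sys.combL, run_ret]
  | [], _ :: _ :: _, acc, t => by simp [Sys.combL, run_ret]
  | x :: xs, [], acc, t => by
    rw [List.foldl_cons]
    have h := combL_run S B xs [] acc t
    have h1 : accStep (combG S B) (acc, (([] : List (Pl Code)), t)) x = (acc, ([], t)) := rfl
    rw [h1, h.1, h.2]
    cases xs <;> simp [Sys.combL, run_ret]
  | x :: xs, [p], acc, t => by
    rw [List.foldl_cons]
    have h := combL_run S B xs [p] acc t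
    have h1 : accStep (combG S B) (acc, ([p], t)) x = (acc, ([p], t)) := rfl
    rw [h1, h.1, h.2]
    cases xs <;> simp [Sys.combL, run_ret]
  | x :: xs, p1 :: p2 :: ps, acc, t => by
    rw [List.foldl_cons]
    have h := combL_run S B xs ps (((S.comb p1 p2 x).run B t).1 :: acc)
      ((S.comb p1 p2 x).run B t).2
    have h1 : accStep (combG S B) (acc, (p1 :: p2 :: ps, t)) x =
      (((S.comb p1 p2 x).run B t).1 :: acc, (ps, ((S.comb p1 p2 x).run B t).2)) := rfl
    rw [h1, h.1, h.2, Sys.combL, run_bind, run_bind, run_ret]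
    simp

theorem sz_combG (S : Sys Code) (B : ℕ) (st : List (Pl Code) × List Bool) (x : Option Code) :
    sz (combG S B st x).2 ≤ sz st := by
  obtain ⟨ps, t⟩ := st
  match ps with
  | [] => exact le_refl _
  | [p] => exact le_refl _
  | p1 :: p2 :: ps =>
    have h1 := sz_run_snd B (S.comb p1 p2 x) t
    have h2 : (combG S B (p1 :: p2 :: ps, t) x).2 = (ps, ((S.comb p1 p2 x).run B t).2) := rfl
    rw [h2, sz_pair, sz_pair, sz_list_cons, sz_list_cons]
    omega

theorem poly_combG (hcand : Poly (fun p : Code × Code => candC k p.1 p.2)) {c : α → Ctx}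
    {st : α → List (Pl Code) × List Bool} {x : α → Option Code} (hc : Poly c) (hst : Poly st)
    (hx : Poly x) :
    Poly (fun a => combG (sy k PN (c a)) (c a).2.length (st a) (x a)) := by
  have h1 : Poly (fun q : (α × Pl Code × List (Pl Code)) × Pl Code × List (Pl Code) =>
      ((([((sy k PN (c q.1.1)).comb q.1.2.1 q.2.1 (x q.1.1)).run (c q.1.1).2.length
        (st q.1.1).2 |>.1] : List (Pl Code)), (q.2.2,
          (((sy k PN (c q.1.1)).comb q.1.2.1 q.2.1 (x q.1.1)).run (c q.1.1).2.length
        (st q.1.1).2).2)) : List (Pl Code) × (List (Pl Code) × List Bool))) := by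
    have hf : Poly (fun q : (α × Pl Code × List (Pl Code)) × Pl Code × List (Pl Code) => q.1.1) :=
      Poly.fst (Poly.fst Poly.id)
    have h2 := poly_comb (PN := PN) (α := (α × Pl Code × List (Pl Code)) × Pl Code × List (Pl Code))
      (c := fun q => c q.1.1) (p1 := fun q => q.1.2.1) (p2 := fun q => q.2.1)
      (x := fun q => x q.1.1) (t := fun q => (st q.1.1).2) hcand (hc.comp hf)
      (Poly.fst (Poly.snd (Poly.fst Poly.id))) (Poly.fst (Poly.snd Poly.id)) (hx.comp hf)
      (Poly.snd (hst.comp hf))
    exact Poly.pair (Poly.cons (Poly.fst h2) (Poly.const _)) (Poly.pair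
      (Poly.snd (Poly.snd Poly.id)) (Poly.snd h2))
  have h3 := Poly.listCases (l := fun a : α => (st a).1) (g := fun a => (([] : List (Pl Code)), st a))
    (h := fun a p1 ps1 => match ps1 with
      | [] => (([] : List (Pl Code)), st a)
      | p2 :: ps => (([(((sy k PN (c a)).comb p1 p2 (x a)).run (c a).2.length
        (st a).2).1] : List (Pl Code)), (ps,
          (((sy k PN (c a)).comb p1 p2 (x a)).run (c a).2.length (st a).2).2)))
    (Poly.fst hst) (Poly.pair (Poly.const _) hst)
    ((Poly.listCases (l := fun q : α × Pl Code × List (Pl Code) => q.2.2)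
      (g := fun q => (([] : List (Pl Code)), st q.1))
      (h := fun q p2 ps => (([(((sy k PN (c q.1)).comb q.2.1 p2 (x q.1)).run (c q.1).2.length
        (st q.1).2).1] : List (Pl Code)), (ps,
          (((sy k PN (c q.1)).comb q.2.1 p2 (x q.1)).run (c q.1).2.length (st q.1).2).2)))
      (Poly.snd (Poly.snd Poly.id)) (Poly.pair (Poly.const _) (hst.comp (Poly.fst Poly.id)))
        h1).congr fun q => by rcases q.2.2 with _ | ⟨p2, ps⟩ <;> rfl)
  refine h3.congr fun a => ?_
  unfold combG
  rcases (st a).1 with _ | ⟨p1, _ | ⟨p2, ps⟩⟩ <;> rfl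

theorem poly_combL (hcand : Poly (fun p : Code × Code => candC k p.1 p.2)) {c : α → Ctx}
    {ps : α → List (Pl Code)} {xs : α → List (Option Code)} {t : α → List Bool} (hc : Poly c)
    (hps : Poly ps) (hxs : Poly xs) (ht : Poly t) :
    Poly (fun a => ((sy k PN (c a)).combL (ps a) (xs a)).run (c a).2.length (t a)) := by
  have h := poly_accFold (l := xs) (s := fun a => (ps a, t a))
    (G := fun a => combG (sy k PN (c a)) (c a).2.length) hxs (Poly.pair hps ht)
    (poly_combG (PN := PN) (α := α × (List (Pl Code) × List Bool) × Option Code)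
      (c := fun q => c q.1) (st := fun q => q.2.1) (x := fun q => q.2.2) hcand
      (hc.comp (Poly.fst Poly.id)) (Poly.fst (Poly.snd Poly.id)) (Poly.snd (Poly.snd Poly.id)))
    (fun a s b => sz_combG _ _ _ _)
  refine (Poly.pair (Poly.reverse (Poly.fst h)) (Poly.snd (Poly.snd h))).congr fun a => ?_
  obtain ⟨h1, h2⟩ := combL_run (sy k PN (c a)) (c a).2.length (xs a) (ps a) [] (t a)
  simp only [h1, h2, List.append_nil, List.reverse_reverse]

/-! ### The levels -/

theorem poly_kd (hkids : Poly (fun c : Code => kidsC k c)) {c : α → Ctx} {x : α → Option Code}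
    (hx : Poly x) : Poly (fun a => (sy k PN (c a)).kd (x a)) :=
  (Poly.optElim (g := fun _ => ((none : Option Code), (none : Option Code)))
    (h := fun _ o => kidsC k o) hx (Poly.const _) (hkids.comp (Poly.snd Poly.id))).congr fun a => by
    cases x a <;> rfl

theorem poly_kdL (hkids : Poly (fun c : Code => kidsC k c)) {c : α → Ctx}
    {xs : α → List (Option Code)} (hxs : Poly xs) :
    Poly (fun a => (sy k PN (c a)).kdL (xs a)) := by
  refine Poly.flatMap (F := fun a x => [((sy k PN (c a)).kd x).1, ((sy k PN (c a)).kd x).2]) hxs ?_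
  have h := poly_kd (PN := PN) (α := α × Option Code) (c := fun q => c q.1) hkids
    (x := fun q => q.2) (Poly.snd Poly.id)
  exact Poly.cons (Poly.fst h) (Poly.cons (Poly.snd h) (Poly.const _))

end Sys

end Pool.Agent.NPC.LT.Samp
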