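import Pool.Agent.H671R2.PolyAuto
import Pool.Agent.NPC.Dec

/-!
# Polynomial time: capped folds, and functions agreeing with a polynomial-time function on a domain
-/

namespace Pool.Agent.NPC.W903

variable {α β γ σ : Type} [TEnc α] [TEnc β] [TEnc γ] [TEnc σ]

theorem poly_bits : Poly (fun a : α => bits a) := by
  have h : PC (bits : α → List Bool) (fun x : List Bool => x) (fun a : α => bits a) :=
    (PC.id : PC (bits : α → List Bool) (bits : α → List Bool) (fun a => a))
  exact PC.comp (g := fun x => x) (f := fun a : α => bits a) PC.rawIn h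

theorem uPoly_sz {f : α → β} (hf : Poly f) : UPoly (fun a => sz (f a)) :=
  UPoly.length (Poly.comp poly_bits hf)

theorem poly_sz {f : α → β} (hf : Poly f) : Poly (fun a => sz (f a)) := (uPoly_sz hf).toPoly

/-- A fold which ignores steps with large results. -/
def capStep (q : Polynomial ℕ) (F : α → σ → β → σ) (a : α) (s : σ) (b : β) : σ :=
  if sz (F a s b) ≤ q.eval (sz a) then F a s b else s

theorem sz_foldl_capStep (q : Polynomial ℕ) (F : α → σ → β → σ) (a : α) : ∀ (l : List β) (s : σ),
    sz (l.foldl (capStep q F a) s) ≤ sz s + q.eval (sz a)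
  | [], s => by simp
  | b :: l, s => by
    rw [List.foldl_cons]
    have h := sz_foldl_capStep q F a l (capStep q F a s b)
    have key : ∀ (l : List β) (s : σ), sz (l.foldl (capStep q F a) s) ≤
        Max.max (sz s) (q.eval (sz a)) := by
      intro l
      induction l with
      | nil => intro s; simp
      | cons b l ih =>
        intro s
        rw [List.foldl_cons]
        refine (ih _).trans ?_
        unfold capStep
        split_ifs with h
        · simp [h]
        · exact le_refl _
    have := key (b :: l) s
    rw [List.foldl_cons] at this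
    omega

theorem poly_capFold {l : α → List β} {s : α → σ} {F : α → σ → β → σ} (hl : Poly l) (hs : Poly s)
    (hF : Poly (fun p : α × σ × β => F p.1 p.2.1 p.2.2)) (q : Polynomial ℕ) :
    Poly (fun a => (l a).foldl (capStep q F a) (s a)) := by
  obtain ⟨r, hr⟩ := hs.sz_le
  refine Poly.foldl (F := capStep q F) hl hs ?_ (r + q) ?_
  · unfold capStep
    refine Poly.ite (Poly.decide_le (poly_sz hF) ?_) hF (Poly.fst (Poly.snd Poly.id))
    exact ((uPoly_sz (Poly.fst Poly.id)).eval q).toPoly
  · intro a k _
    refine (sz_foldl_capStep q F a _ _).trans ?_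
    rw [Polynomial.eval_add]
    have := hr a
    omega

/-- `f` agrees with a polynomial-time function on the domain `D`. -/
def On (D : α → Prop) (f : α → β) : Prop := ∃ g : α → β, Poly g ∧ ∀ a, D a → g a = f a

theorem _root_.Pool.Agent.NPC.Poly.on {f : α → β} (hf : Poly f) (D : α → Prop) : On D f :=
  ⟨f, hf, fun _ _ => rfl⟩

namespace On

variable {D : α → Prop}

theorem congr {f f' : α → β} (hf : On D f) (h : ∀ a, D a → f a = f' a) : On D f' := by
  obtain ⟨g, hg, hgf⟩ := hf
  exact ⟨g, hg, fun a ha => (hgf a ha).trans (h a ha)⟩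

theorem mono {D' : α → Prop} {f : α → β} (hf : On D f) (h : ∀ a, D' a → D a) : On D' f := by
  obtain ⟨g, hg, hgf⟩ := hf
  exact ⟨g, hg, fun a ha => hgf a (h a ha)⟩

theorem comp {E : β → Prop} {g : β → γ} {f : α → β} (hg : On E g) (hf : On D f)
    (h : ∀ a, D a → E (f a)) : On D (fun a => g (f a)) := by
  obtain ⟨g', hg', hgg⟩ := hg
  obtain ⟨f', hf', hff⟩ := hf
  refine ⟨fun a => g' (f' a), hg'.comp hf', fun a ha => ?_⟩
  simp only
  rw [hff a ha, hgg _ (h a ha)]

/-- Apply a polynomial-time function. -/
theorem app {g : β → γ} {f : α → β} (hg : Poly g) (hf : On D f) : On D (fun a => g (f a)) :=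
  comp (hg.on fun _ => True) hf fun _ _ => trivial

theorem pair {f : α → β} {g : α → γ} (hf : On D f) (hg : On D g) : On D (fun a => (f a, g a)) := by
  obtain ⟨f', hf', hff⟩ := hf
  obtain ⟨g', hg', hgg⟩ := hg
  refine ⟨fun a => (f' a, g' a), Poly.pair hf' hg', fun a ha => ?_⟩
  simp only
  rw [hff a ha, hgg a ha]

/-- Folds with polynomially bounded intermediate results on the domain. -/
theorem foldl {E : α × σ × β → Prop} {l : α → List β} {s : α → σ} {F : α → σ → β → σ}
    (hl : On D l) (hs : On D s) (hF : On E (fun p : α × σ × β => F p.1 p.2.1 p.2.2))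
    (q : Polynomial ℕ) (I : α → List β → σ → Prop) (h0 : ∀ a, D a → I a (l a) (s a))
    (hI : ∀ a b t s, D a → I a (b :: t) s → E (a, s, b) ∧ I a t (F a s b) ∧
      sz (F a s b) ≤ q.eval (sz a)) :
    On D (fun a => (l a).foldl (F a) (s a)) := by
  obtain ⟨l', hl', hll⟩ := hl
  obtain ⟨s', hs', hss⟩ := hs
  obtain ⟨F', hF', hFF⟩ := hF
  refine ⟨fun a => (l' a).foldl (capStep q (fun a s b => F' (a, s, b)) a) (s' a),
    poly_capFold (F := fun a s b => F' (a, s, b)) hl' hs' hF' q, fun a ha => ?_⟩
  have key : ∀ (l : List β) (s : σ), I a l s →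
      l.foldl (capStep q (fun a s b => F' (a, s, b)) a) s = l.foldl (F a) s := by
    intro l
    induction l with
    | nil => intro s _; rfl
    | cons b l ih =>
      intro s hs
      obtain ⟨h1, h2, h3⟩ := hI a b l s ha hs
      have h4 := hFF _ h1
      simp only at h4
      rw [List.foldl_cons, List.foldl_cons]
      have h5 : capStep q (fun a s b => F' (a, s, b)) a s b = F a s b := by
        unfold capStep
        simp only
        rw [h4, if_pos h3]
      rw [h5]
      exact ih _ h2
  simp only
  rw [hll a ha, hss a ha]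
  exact key _ _ (h0 a ha)

/-- Iteration with polynomially bounded intermediate results on the domain. -/
theorem iterate {E : α × σ → Prop} {n : α → ℕ} {s : α → σ} {F : α → σ → σ}
    (hn : UPoly n) (hs : On D s) (hF : On E (fun p : α × σ => F p.1 p.2))
    (q : Polynomial ℕ) (I : α → ℕ → σ → Prop) (h0 : ∀ a, D a → I a (n a) (s a))
    (hI : ∀ a m s, D a → I a (m + 1) s → E (a, s) ∧ I a m (F a s) ∧
      sz (F a s) ≤ q.eval (sz a)) :
    On D (fun a => (F a)^[n a] (s a)) := by
  have key : ∀ (a : α) (l : List Unit) (s : σ), l.foldl (fun s _ => F a s) s = (F a)^[l.length] s := by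
    intro a l
    induction l with
    | nil => intro s; rfl
    | cons b l ih => intro s; rw [List.foldl_cons, ih]; rfl
  have h := foldl (D := D) (E := fun p : α × σ × Unit => E (p.1, p.2.1))
    (l := fun a => List.replicate (n a) ()) (s := s) (F := fun a s _ => F a s) (hn.on D) hs
    (comp (E := E) (f := fun p : α × σ × Unit => (p.1, p.2.1)) hF
      ((Poly.pair (Poly.fst Poly.id) (Poly.fst (Poly.snd Poly.id))).on _) fun _ h => h) q
    (fun a l s => I a l.length s) (by simpa using h0) (by
      intro a b t s ha hs
      exact hI a t.length s ha (by simpa using hs))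
  refine h.congr fun a _ => ?_
  rw [key, List.length_replicate]

end On

/-! ### Unconditional folds with a simple bound -/

/-- Iteration where the state is bounded by an invariant. -/
theorem poly_iterate {n : α → ℕ} {s : α → σ} {F : α → σ → σ}
    (hn : UPoly n) (hs : Poly s) (hF : Poly (fun p : α × σ => F p.1 p.2))
    (q : Polynomial ℕ) (hq : ∀ a, ∀ k ≤ n a, sz ((F a)^[k] (s a)) ≤ q.eval (sz a)) :
    Poly (fun a => (F a)^[n a] (s a)) :=
  (Poly.iterLen (l := fun a => List.replicate (n a) ()) hn hs hF q (by simpa using hq)).congr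
    fun a => by rw [List.length_replicate]

end Pool.Agent.NPC.W903
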