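import Pool.Agent.W903.LT.Run

/-!
# The functions on codes are polynomial-time computable: `S_polyCode`
-/

namespace Pool.Agent.NPC.LT.PCode

open Pool.Agent.W955.LT Pool.Agent.NPC.W903 Pool.Agent.NPC.LT.Samp

attribute [local fun_prop] poly_take poly_drop

/-! ### Keys -/

theorem key_lt (w : List ℕ) : key w < 2 ^ (3 * sz w) := by
  induction w with
  | nil => simp [key]
  | cons d w ih =>
    have h1 : key (d :: w) = 7 * key w + (d + 1) := rfl
    have h2 : d < 2 ^ (sz d) := by
      rw [← Nat.size_le]
      have := size_le_sz d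
      omega
    have h3 : (2 : ℕ) ^ (sz d) ≤ 2 ^ (3 * sz d) := Nat.pow_le_pow_right (by norm_num) (by omega)
    have h4 : 8 ≤ (2 : ℕ) ^ (3 * sz d) := by
      calc 8 = 2 ^ 3 := by norm_num
        _ ≤ _ := Nat.pow_le_pow_right (by norm_num) (by have := sz_pos d; omega)
    have h5 : 8 ≤ (2 : ℕ) ^ (3 * sz w) := by
      calc 8 = 2 ^ 3 := by norm_num
        _ ≤ _ := Nat.pow_le_pow_right (by norm_num) (by have := sz_pos w; omega)
    have h6 : (2 : ℕ) ^ (3 * sz (d :: w)) = 8 * (2 ^ (3 * sz w) * 2 ^ (3 * sz d)) := by
      rw [sz_list_cons, ← pow_add, show (8 : ℕ) = 2 ^ 3 by norm_num, ← pow_add]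
      congr 1
      ring
    rw [h1, h6]
    nlinarith [Nat.mul_le_mul h4 h5]

theorem poly_key {α : Type} [TEnc α] {w : α → List ℕ} (hw : Poly w) : Poly (fun a => key (w a)) := by
  obtain ⟨r, hr⟩ := hw.sz_le
  refine Poly.foldr (F := fun _ d acc => 7 * acc + (d + 1)) hw (Poly.const 0) (by fun_prop)
    (Polynomial.C 12 * r + Polynomial.C 1) fun a j _ => ?_
  change sz (key ((w a).drop j)) ≤ _
  have h1 := key_lt ((w a).drop j)
  have h2 := sz_nat_le (key ((w a).drop j))
  have h3 := Nat.size_le.2 h1
  have h4 := Poly.sz_drop_le (w a) j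
  have h5 := hr a
  simp only [Polynomial.eval_add, Polynomial.eval_mul, Polynomial.eval_C]
  omega

attribute [local fun_prop] poly_key

/-! ### Sorting -/

theorem sz_filter2 {β : Type} [TEnc β] (p q : β → Bool) (hpq : ∀ b, p b = true → q b = false)
    (l : List β) : sz (l.filter p) + sz (l.filter q) ≤ sz l + 1 := by
  induction l with
  | nil => simp
  | cons b l ih =>
    rw [List.filter_cons, List.filter_cons]
    by_cases hp : p b = true
    · have := hpq b hp
      simp only [hp, this]
      simp
      omega
    · by_cases hq : q b = true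
      · simp only [hp, hq]
        simp
        omega
      · simp only [hp, hq]
        simp
        omega

theorem sz_ins (w : List ℕ) (l : List (List ℕ)) : sz (ins w l) ≤ sz w + sz l + 1 := by
  unfold ins
  have h1 := sz_filter2 (fun v => decide (key v < key w)) (fun v => decide (key w < key v))
    (fun b hb => by
      simp only [decide_eq_true_eq, decide_eq_false_iff_not] at hb ⊢
      omega) l
  have h2 := sz_append (l.filter (fun v => decide (key v < key w)))
    (w :: l.filter (fun v => decide (key w < key v)))
  rw [sz_list_cons] at h2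
  omega

theorem sz_norm (l : List (List ℕ)) : sz (norm l) ≤ sz l := by
  induction l with
  | nil => exact le_refl _
  | cons w l ih =>
    change sz (ins w (norm l)) ≤ _
    have := sz_ins w (norm l)
    rw [sz_list_cons]
    omega

theorem poly_ins {α : Type} [TEnc α] {w : α → List ℕ} {l : α → List (List ℕ)} (hw : Poly w)
    (hl : Poly l) : Poly (fun a => ins (w a) (l a)) := by
  unfold ins
  fun_prop

theorem poly_norm {α : Type} [TEnc α] {l : α → List (List ℕ)} (hl : Poly l) :
    Poly (fun a => norm (l a)) := by
  obtain ⟨r, hr⟩ := hl.sz_le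
  refine Poly.foldr (F := fun _ w acc => ins w acc) hl (Poly.const [])
    (poly_ins (by fun_prop) (by fun_prop)) r fun a j _ => ?_
  change sz (norm ((l a).drop j)) ≤ _
  exact (sz_norm _).trans ((Poly.sz_drop_le _ _).trans (hr a))

attribute [local fun_prop] poly_norm

/-! ### Parts -/

section Parts

variable {α : Type} [TEnc α]

theorem poly_isSuf {b w : α → List ℕ} (hb : Poly b) (hw : Poly w) :
    Poly (fun a => isSuf (b a) (w a)) := by
  unfold isSuf
  fun_prop

attribute [local fun_prop] poly_isSuf

theorem poly_upC {c : α → Code} {b : α → List ℕ} (hc : Poly c) (hb : Poly b) :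
    Poly (fun a => upC (c a) (b a)) := by
  unfold upC
  fun_prop

theorem poly_belowC {l : α → List (List ℕ)} {b : α → List ℕ} (hl : Poly l) (hb : Poly b) :
    Poly (fun a => belowC (l a) (b a)) := by
  unfold belowC
  fun_prop

attribute [local fun_prop] poly_belowC poly_upC

theorem poly_lowC {c : α → Code} {b : α → List ℕ} (hc : Poly c) (hb : Poly b) :
    Poly (fun a => lowC (c a) (b a)) := by
  unfold lowC
  fun_prop

attribute [local fun_prop] poly_lowC

theorem poly_goodC {c : α → Code} {b : α → List ℕ} (hc : Poly c) (hb : Poly b) :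
    Poly (fun a => goodC (c a) (b a)) := by
  unfold goodC
  fun_prop

attribute [local fun_prop] poly_goodC

theorem poly_cutC {c : α → Code} (hc : Poly c) : Poly (fun a => cutC (c a)) := by
  unfold cutC
  fun_prop

/-! ### Positions -/

theorem poly_addC (k : Kind) {s : α → Bool} {d : α → ℕ} {p : α → ℕ × ℕ × ℕ × ℕ} (hs : Poly s)
    (hd : Poly d) (hp : Poly p) : Poly (fun a => addC k (s a) (d a) (p a)) := by
  have hst : Poly (fun a => stp k (d a)) := by
    unfold stp
    fun_prop
  have hneg : ∀ z : ℤ × ℤ → ℤ, (∀ v : α → ℤ × ℤ, Poly v → Poly (fun a => z (v a))) →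
      ∀ e : ℤ, Poly (fun a => decide ((if s a = true then -z (stp k (d a)) else
        z (stp k (d a))) = e)) := by
    intro z hz e
    refine (Poly.cond hs (Poly.decide_eq (hz _ hst) (Poly.const (-e)))
      (Poly.decide_eq (hz _ hst) (Poly.const e))).congr fun a => ?_
    cases s a
    · simp
    · simp only [cond_true, if_true]
      congr 1
      apply propext
      constructor <;> intro h <;> omega
  have h1 := hneg Prod.fst (fun v hv => Poly.fst hv)
  have h2 := hneg Prod.snd (fun v hv => Poly.snd hv)
  unfold addC
  simp only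
  refine Poly.pair (Poly.add (Poly.fst hp) (Poly.ite (h1 1) (Poly.const 1) (Poly.const 0)))
    (Poly.pair (Poly.add (Poly.fst (Poly.snd hp)) (Poly.ite (h1 (-1)) (Poly.const 1)
      (Poly.const 0))) (Poly.pair (Poly.add (Poly.fst (Poly.snd (Poly.snd hp)))
      (Poly.ite (h2 1) (Poly.const 1) (Poly.const 0))) (Poly.add (Poly.snd (Poly.snd
      (Poly.snd hp))) (Poly.ite (h2 (-1)) (Poly.const 1) (Poly.const 0)))))

/-- Positions with the parity of the length. -/
def posF (k : Kind) (d : ℕ) (s : Bool × ℕ × ℕ × ℕ × ℕ) : Bool × ℕ × ℕ × ℕ × ℕ :=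
  (!s.1, addC k (match k with | .hex => s.1 | _ => false) d s.2)

theorem posF_eq (k : Kind) (w : List ℕ) :
    w.foldr (posF k) (false, 0, 0, 0, 0) = (decide (w.length % 2 = 1), posC k w) := by
  induction w with
  | nil => rfl
  | cons d w ih =>
    rw [List.foldr_cons, ih]
    have h1 : (!decide (w.length % 2 = 1)) = decide ((d :: w).length % 2 = 1) := by
      rw [List.length_cons]
      by_cases h : w.length % 2 = 1
      · have h' : ¬ (w.length + 1) % 2 = 1 := by omega
        simp [h, h']
      · have h' : (w.length + 1) % 2 = 1 := by omega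
        simp [h, h']
    refine Prod.ext h1 ?_
    cases k <;> rfl

theorem posC_le (k : Kind) (w : List ℕ) : (posC k w).1 ≤ w.length ∧ (posC k w).2.1 ≤ w.length ∧
    (posC k w).2.2.1 ≤ w.length ∧ (posC k w).2.2.2 ≤ w.length := by
  induction w with
  | nil => exact ⟨le_rfl, le_rfl, le_rfl, le_rfl⟩
  | cons d w ih =>
    obtain ⟨h1, h2, h3, h4⟩ := ih
    simp only [posC, addC, List.length_cons]
    refine ⟨?_, ?_, ?_, ?_⟩ <;>
    · split_ifs <;> omega

theorem poly_posC (k : Kind) {w : α → List ℕ} (hw : Poly w) : Poly (fun a => posC k (w a)) := by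
  obtain ⟨r, hr⟩ := hw.sz_le
  have hF : Poly (fun p : α × ℕ × Bool × ℕ × ℕ × ℕ × ℕ => posF k p.2.1 p.2.2) := by
    unfold posF
    refine Poly.pair (by fun_prop) (poly_addC k ?_ (by fun_prop) (by fun_prop))
    cases k
    · exact Poly.const _
    · exact Poly.fst (Poly.snd (Poly.snd Poly.id))
    · exact Poly.const _
  have h := Poly.foldr (F := fun _ d s => posF k d s) (s := fun _ => (false, 0, 0, 0, 0)) hw
    (Poly.const _) hF (Polynomial.C 16 * r + Polynomial.C 20) fun a j _ => by
      change sz (((w a).drop j).foldr (posF k) (false, 0, 0, 0, 0)) ≤ _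
      rw [posF_eq]
      obtain ⟨h1, h2, h3, h4⟩ := posC_le k ((w a).drop j)
      have h5 := length_lt_sz ((w a).drop j)
      have h6 := Poly.sz_drop_le (w a) j
      have h7 := hr a
      have h8 : ∀ m, m ≤ ((w a).drop j).length → sz m ≤ 4 * r.eval (sz a) + 1 := fun m hm => by
        have h9 := sz_nat_le m
        have h10 := Poly.size_le_self m
        omega
      have h11 := sz_bool_le (decide (((w a).drop j).length % 2 = 1))
      have e1 : sz (decide (((w a).drop j).length % 2 = 1), posC k ((w a).drop j)) =
        sz (decide (((w a).drop j).length % 2 = 1)) + (sz (posC k ((w a).drop j)).1 +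
        (sz (posC k ((w a).drop j)).2.1 + (sz (posC k ((w a).drop j)).2.2.1 +
        sz (posC k ((w a).drop j)).2.2.2 + 1) + 1) + 1) + 1 := by
        rw [← sz_pair, ← sz_pair, ← sz_pair, ← sz_pair]
      rw [e1]
      have := h8 _ h1
      have := h8 _ h2
      have := h8 _ h3
      have := h8 _ h4
      simp only [Polynomial.eval_add, Polynomial.eval_mul, Polynomial.eval_C]
      omega
  refine (Poly.snd h).congr fun a => ?_
  change (((w a).foldr (posF k) (false, 0, 0, 0, 0))).2 = _
  rw [posF_eq]

theorem poly_eqC {p q : α → ℕ × ℕ × ℕ × ℕ} (hp : Poly p) (hq : Poly q) :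
    Poly (fun a => eqC (p a) (q a)) := by
  unfold eqC
  fun_prop

attribute [local fun_prop] poly_posC poly_eqC

theorem poly_validC (k : Kind) {c : α → Code} (hc : Poly c) : Poly (fun a => validC k (c a)) := by
  unfold validC
  simp only [List.headD_eq_head?_getD]
  fun_prop

attribute [local fun_prop] poly_validC poly_cutC

theorem poly_kidsC (k : Kind) {c : α → Code} (hc : Poly c) : Poly (fun a => kidsC k (c a)) := by
  have h : Poly (fun a => if validC k (c a) = true then
      (cutC (c a)).elim ((none, none) : Option Code × Option Code)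
        (fun b => (some (upC (c a) b), some (lowC (c a) b))) else (none, none)) := by
    fun_prop
  refine h.congr fun a => ?_
  unfold kidsC
  cases cutC (c a) <;> rfl

attribute [local fun_prop] poly_kidsC

/-! ### Candidates -/

theorem poly_glueC {x y : α → Code} {m : α → List ℕ} {d : α → ℕ} {s t : α → Bool} (hx : Poly x)
    (hy : Poly y) (hm : Poly m) (hd : Poly d) (hs : Poly s) (ht : Poly t) :
    Poly (fun a => glueC (x a) (y a) (m a) (d a) (s a) (t a)) := by
  unfold glueC
  fun_prop

attribute [local fun_prop] poly_glueC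

theorem poly_glues (k : Kind) {x y : α → Code} (hx : Poly x) (hy : Poly y) :
    Poly (fun a => glues k (x a) (y a)) := by
  unfold glues
  fun_prop

theorem sz_dedupC (l : List Code) : sz (dedupC l) ≤ sz l := by
  induction l with
  | nil => exact le_refl _
  | cons z l ih =>
    change sz (if z ∈ dedupC l then dedupC l else z :: dedupC l) ≤ _
    rw [sz_list_cons]
    split_ifs
    · omega
    · rw [sz_list_cons]; omega

theorem poly_dedupC {l : α → List Code} (hl : Poly l) : Poly (fun a => dedupC (l a)) := by
  obtain ⟨r, hr⟩ := hl.sz_le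
  refine Poly.foldr (F := fun _ z acc => if z ∈ acc then acc else z :: acc) hl (Poly.const [])
    (by fun_prop) r fun a j _ => ?_
  change sz (dedupC ((l a).drop j)) ≤ _
  exact (sz_dedupC _).trans ((Poly.sz_drop_le _ _).trans (hr a))

attribute [local fun_prop] poly_glues poly_dedupC

theorem poly_candC (k : Kind) {x y : α → Code} (hx : Poly x) (hy : Poly y) :
    Poly (fun a => candC k (x a) (y a)) := by
  unfold candC
  fun_prop

/-! ### The line -/

/-- The directions of the line. -/
def lineD (k : Kind) (i : ℕ) : ℕ := match k with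
  | .hex => i % 2
  | _ => 0

theorem lineW_eq (k : Kind) (i : ℕ) : lineW k i = ((List.range i).map (lineD k)).reverse := by
  induction i with
  | zero => rfl
  | succ i ih =>
    rw [List.range_succ, List.map_append, List.reverse_append, ← ih]
    cases k <;> rfl

theorem poly_lineD (k : Kind) {i : α → ℕ} (hi : Poly i) : Poly (fun a => lineD k (i a)) := by
  cases k
  · exact Poly.const 0
  · exact Poly.mod hi (Poly.const 2)
  · exact Poly.const 0

attribute [local fun_prop] poly_lineD

theorem poly_lineC (k : Kind) : Poly (fun l : List Unit => lineC k l.length) := by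
  have h : Poly (fun l : List Unit => (List.range l.length).map (fun i =>
      ((List.range (min i l.length)).map (lineD k)).reverse)) := by
    refine Poly.map (F := fun (l : List Unit) i =>
      ((List.range (min i l.length)).map (lineD k)).reverse) (Poly.range_length Poly.id) ?_
    have h1 : UPoly (fun q : List Unit × ℕ => min q.2 q.1.length) :=
      UPoly.of_le (by fun_prop) (UPoly.length (Poly.fst Poly.id)) fun q => min_le_right _ _
    exact Poly.reverse (Poly.map (F := fun _ i => lineD k i) h1.range (by fun_prop))
  refine (Poly.pair (poly_norm h) (Poly.const [[]])).congr fun l => ?_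
  unfold lineC
  congr 2
  apply List.map_congr_left
  intro i hi
  rw [List.mem_range] at hi
  rw [lineW_eq, min_eq_left hi.le]

/-! ### The edges -/

theorem poly_subZ {p q : α → ℕ} (hp : Poly p) (hq : Poly q) :
    Poly (fun a => ((p a : ℤ) - (q a : ℤ))) := by
  refine Poly.of_toT ((Poly.toT' (f := fun a => (decide (p a < q a), (p a - q a) + (q a - p a)))
    (by fun_prop)).congr fun a => ?_)
  change toT (decide (p a < q a), (p a - q a) + (q a - p a)) =
    toT (decide ((p a : ℤ) - (q a : ℤ) < 0), ((p a : ℤ) - (q a : ℤ)).natAbs)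
  congr 2
  · congr 1
    apply propext
    constructor <;> intro h <;> omega
  · omega

attribute [local fun_prop] poly_subZ

theorem poly_edgesC (k : Kind) {c : α → Code} (hc : Poly c) : Poly (fun a => edgesC k (c a)) := by
  unfold edgesC posZ
  fun_prop

end Parts

end Pool.Agent.NPC.LT.PCode
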