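import Pool.Agent.W903.LT.On
import Pool.Agent.W955.LT.PStm

/-!
# The sampler: one combination step is polynomial-time (unconditionally)
-/

namespace Pool.Agent.NPC.LT.Samp

open Pool.Agent.W955.LT Pool.Agent.NPC.W903

section Runs

variable {α β : Type}

theorem run_bind (B : ℕ) (p : Prog α) (g : α → Prog β) (t : List Bool) :
    (p.bind g).run B t = (g (p.run B t).1).run B (p.run B t).2 := by
  induction p generalizing t with
  | ret a => rfl
  | draw w k ih => simp only [Prog.bind, Prog.run, ih]

theorem run_ret (B : ℕ) (a : α) (t : List Bool) : (Prog.ret a).run B t = (a, t) := rfl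

theorem run_draw (B : ℕ) (w : ℕ) (g : ℕ → Prog α) (t : List Bool) :
    (Prog.draw w g).run B t = (g (Prog.bval (t.take B) * (w + 1) / 2 ^ B)).run B (t.drop B) := rfl

theorem bval_eq (l : List Bool) : Prog.bval l = valB l := by
  induction l with
  | nil => rfl
  | cons b l ih =>
    rw [Prog.bval, ih]
    cases b <;> simp [valB]

/-- The tape shrinks. -/
theorem sz_run_snd [TEnc α] (B : ℕ) (p : Prog α) (t : List Bool) :
    sz (p.run B t).2 ≤ sz t := by
  induction p generalizing t with
  | ret a => exact le_refl _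
  | draw w k ih =>
    rw [run_draw]
    exact (ih _ _).trans (Poly.sz_drop_le _ _)

end Runs

/-! ### Elementary functions -/

section Basic

variable {α β : Type} [TEnc α] [TEnc β]

theorem take_eq_aux {α : Type} (k : ℕ) : ∀ (l : List α) (j : ℕ),
    ((l.zipIdx j).filter fun q => decide (q.2 < j + k)).map Prod.fst = l.take k
  | [], j => by simp
  | a :: l, j => by
    rw [List.zipIdx_cons]
    cases k with
    | zero =>
      rw [List.take_zero, List.map_eq_nil_iff, List.filter_eq_nil_iff]
      rintro ⟨b, i⟩ hb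
      rw [← List.zipIdx_cons, List.mem_zipIdx_iff_le_and_getElem?_sub] at hb
      simp only [decide_eq_true_eq]
      omega
    | succ k =>
      have ih := take_eq_aux k l (j + 1)
      rw [List.take_succ_cons, ← ih, List.filter_cons_of_pos (by simp), List.map_cons,
        show j + (k + 1) = j + 1 + k by omega]

theorem drop_eq_aux {α : Type} (k : ℕ) : ∀ (l : List α) (j : ℕ),
    ((l.zipIdx j).filter fun q => decide (j + k ≤ q.2)).map Prod.fst = l.drop k
  | [], j => by simp
  | a :: l, j => by
    rw [List.zipIdx_cons]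
    cases k with
    | zero =>
      rw [List.drop_zero, List.filter_eq_self.2]
      · rw [← List.zipIdx_cons]
        exact List.zipIdx_map_fst _ _
      · rintro ⟨b, i⟩ hb
        rw [← List.zipIdx_cons, List.mem_zipIdx_iff_le_and_getElem?_sub] at hb
        simp only [decide_eq_true_eq]
        omega
    | succ k =>
      have ih := drop_eq_aux k l (j + 1)
      rw [List.drop_succ_cons, ← ih, List.filter_cons_of_neg (by simp),
        show j + (k + 1) = j + 1 + k by omega]

theorem poly_take {l : α → List β} {k : α → ℕ} (hl : Poly l)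
    (hk : Poly k) : Poly (fun a => (l a).take (k a)) := by
  have h : Poly (fun a => (((l a).zipIdx.filter fun q => decide (q.2 < k a)).map Prod.fst)) := by
    fun_prop
  refine h.congr fun a => ?_
  have := take_eq_aux (k a) (l a) 0
  simpa using this

theorem poly_drop {l : α → List β} {k : α → ℕ} (hl : Poly l)
    (hk : Poly k) : Poly (fun a => (l a).drop (k a)) := by
  have h : Poly (fun a => (((l a).zipIdx.filter fun q => decide (k a ≤ q.2)).map Prod.fst)) := by
    fun_prop
  refine h.congr fun a => ?_
  have := drop_eq_aux (k a) (l a) 0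
  simpa using this

theorem poly_two_pow {n : α → ℕ} (hn : UPoly n) : Poly (fun a => 2 ^ (n a)) :=
  (Poly.valBits (Poly.append (l := fun a => List.replicate (n a) false)
    ((Poly.map (F := fun _ (_ : Unit) => false) hn (Poly.const false)).congr fun a => by simp)
    (Poly.const [true]))).congr fun a => by
    rw [valB_replicate_false]; simp

theorem poly_listSet {l : α → List β} {j : α → ℕ} {x : α → β} (hl : Poly l) (hj : Poly j)
    (hx : Poly x) : Poly (fun a => (l a).set (j a) (x a)) := by
  have h : Poly (fun a => (l a).zipIdx.map fun q => if q.2 = j a then x a else q.1) := by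
    refine Poly.map (F := fun a q => if q.2 = j a then x a else q.1) (Poly.zipIdx hl)
      (Poly.ite (p := fun q : α × β × ℕ => q.2.2 = j q.1) ?_ ?_ ?_)
    · exact Poly.decide_eq (Poly.snd (Poly.snd Poly.id)) (hj.comp (Poly.fst Poly.id))
    · exact hx.comp (Poly.fst Poly.id)
    · exact Poly.fst (Poly.snd Poly.id)
  refine h.congr fun a => ?_
  apply List.ext_getElem
  · simp
  · intro i h1 h2
    simp [List.getElem_set, eq_comm]

theorem poly_draw {B w : α → ℕ} {t : α → List Bool} (hB : UPoly B) (hw : Poly w) (ht : Poly t) :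
    Poly (fun a => Prog.bval ((t a).take (B a)) * (w a + 1) / 2 ^ (B a)) := by
  have h := Poly.div (Poly.mul (Poly.valBits (poly_take ht hB.toPoly)) (Poly.add hw (Poly.const 1)))
    (poly_two_pow hB)
  exact h.congr fun a => by rw [bval_eq]

end Basic

/-! ### The functions of the system -/

section Sys

variable {α : Type} [TEnc α]

/-- The parameters: `n` and the number of bits per draw (unary). -/
abbrev Ctx := List Unit × List Unit

/-- The system. -/
noncomputable abbrev sy (k : Kind) (PN : Polynomial ℕ) (c : Ctx) : Sys Code :=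
  sysC k c.1.length (PN.eval c.1.length)

theorem uPoly_n {c : α → Ctx} (hc : Poly c) : UPoly (fun a => (c a).1.length) :=
  UPoly.length (Poly.fst hc)

theorem uPoly_B {c : α → Ctx} (hc : Poly c) : UPoly (fun a => (c a).2.length) :=
  UPoly.length (Poly.snd hc)

theorem uPoly_N (PN : Polynomial ℕ) {c : α → Ctx} (hc : Poly c) :
    UPoly (fun a => PN.eval (c a).1.length) := (uPoly_n hc).eval PN

theorem poly_wt {p : α → Pl Code} {m : α → ℕ} (hp : Poly p) (hm : Poly m) :
    Poly (fun a => Sys.wt (p a) (m a)) :=
  Poly.getD (Poly.fst (Poly.snd hp)) hm (Poly.const 0)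

variable {k : Kind} {PN : Polynomial ℕ}

theorem poly_base {c : α → Ctx} (hc : Poly c) : Poly (fun a => (sy k PN (c a)).base) := by
  refine Poly.pair (uPoly_N PN hc).toPoly (Poly.pair ?_ ?_)
  · refine Poly.map (F := fun _ m => if m = 1 then 1 else 0)
      (((uPoly_n hc).add (UPoly.const 1)).range) ?_
    exact Poly.ite (Poly.decide_eq (Poly.snd Poly.id) (Poly.const 1)) (Poly.const 1) (Poly.const 0)
  · exact (Poly.map (F := fun _ (_ : Unit) => (some ([[]], [[]]) : Option Code)) (uPoly_N PN hc)
      (Poly.const _)).congr fun a => by simp [sy, sysC]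

theorem poly_cxy (hcand : Poly (fun p : Code × Code => candC k p.1 p.2)) {c : α → Ctx}
    {p1 p2 : α → Pl Code} {m : α → ℕ} {x y : α → Option Code} (hp1 : Poly p1) (hp2 : Poly p2)
    (hm : Poly m) (hx : Poly x) (hy : Poly y) :
    Poly (fun a => (sy k PN (c a)).cxy (p1 a) (p2 a) (m a) (x a) (y a)) := by
  have h : Poly (fun a => (x a).elim [] fun u => (y a).elim [] fun v =>
      ((candC k u v).filter (fun z => decide (z.1.length = m a))).map
        (fun z => (Sys.wt (p1 a) u.1.length * Sys.wt (p2 a) v.1.length, z))) := by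
    refine Poly.optElim (h := fun a u => (y a).elim [] fun v =>
      ((candC k u v).filter (fun z => decide (z.1.length = m a))).map
        (fun z => (Sys.wt (p1 a) u.1.length * Sys.wt (p2 a) v.1.length, z))) hx (Poly.const _) ?_
    refine Poly.optElim (o := fun q : α × Code => y q.1) (h := fun q v =>
      ((candC k q.2 v).filter (fun z => decide (z.1.length = m q.1))).map
        (fun z => (Sys.wt (p1 q.1) q.2.1.length * Sys.wt (p2 q.1) v.1.length, z)))
      (hy.comp (Poly.fst Poly.id)) (Poly.const _) ?_
    refine Poly.map (α := (α × Code) × Code)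
      (l := fun q => (candC k q.1.2 q.2).filter (fun z => decide (z.1.length = m q.1.1)))
      (F := fun q z => (Sys.wt (p1 q.1.1) q.1.2.1.length * Sys.wt (p2 q.1.1) q.2.1.length, z)) ?_ ?_
    · refine Poly.filter (α := (α × Code) × Code) (l := fun q => candC k q.1.2 q.2)
        (p := fun q z => decide (z.1.length = m q.1.1))
        (hcand.comp (Poly.pair (Poly.snd (Poly.fst Poly.id)) (Poly.snd Poly.id))) ?_
      exact Poly.decide_eq (Poly.length (Poly.fst (Poly.snd Poly.id)))
        (hm.comp (Poly.fst (Poly.fst (Poly.fst Poly.id))))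
    · refine Poly.pair (Poly.mul (poly_wt ?_ ?_) (poly_wt ?_ ?_)) (Poly.snd Poly.id)
      · exact hp1.comp (Poly.fst (Poly.fst (Poly.fst Poly.id)))
      · exact Poly.length (Poly.fst (Poly.snd (Poly.fst (Poly.fst Poly.id))))
      · exact hp2.comp (Poly.fst (Poly.fst (Poly.fst Poly.id)))
      · exact Poly.length (Poly.fst (Poly.snd (Poly.fst Poly.id)))
  refine h.congr fun a => ?_
  cases x a <;> cases y a <;> rfl

theorem poly_cs (hcand : Poly (fun p : Code × Code => candC k p.1 p.2)) {c : α → Ctx}
    {p1 p2 : α → Pl Code} {m : α → ℕ} (hp1 : Poly p1) (hp2 : Poly p2) (hm : Poly m) :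
    Poly (fun a => (sy k PN (c a)).cs (p1 a) (p2 a) (m a)) := by
  refine Poly.append (Poly.ite (Poly.decide_eq hm (Poly.const 1)) ?_ (Poly.const _)) ?_
  · exact Poly.cons (Poly.pair (Poly.mul (Poly.fst hp1) (Poly.fst hp2)) (Poly.const _))
      (Poly.const _)
  · refine Poly.flatMap (F := fun a x => (p2 a).2.2.flatMap
      (fun y => (sy k PN (c a)).cxy (p1 a) (p2 a) (m a) x y)) (Poly.snd (Poly.snd hp1)) ?_
    refine Poly.flatMap (l := fun q : α × Option Code => (p2 q.1).2.2) (F := fun q y =>
      (sy k PN (c q.1)).cxy (p1 q.1) (p2 q.1) (m q.1) q.2 y)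
      ((Poly.snd (Poly.snd hp2)).comp (Poly.fst Poly.id)) ?_
    exact poly_cxy (α := (α × Option Code) × Option Code) (c := fun q => c q.1.1) hcand
      (hp1.comp (Poly.fst (Poly.fst Poly.id))) (hp2.comp (Poly.fst (Poly.fst Poly.id)))
      (hm.comp (Poly.fst (Poly.fst Poly.id))) (Poly.snd (Poly.fst Poly.id)) (Poly.snd Poly.id)

theorem poly_total {l : α → List (ℕ × Code)} (hl : Poly l) :
    Poly (fun a => Sys.total (l a)) :=
  Poly.sum (Poly.map (F := fun _ (q : ℕ × Code) => q.1) hl (Poly.fst (Poly.snd Poly.id)))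

/-- The step of the selection. -/
def selStep (s : Option Code × ℕ) (q : ℕ × Code) : Option Code × ℕ :=
  if s.1 = none then (if s.2 < q.1 then (some q.2, s.2) else (none, s.2 - q.1)) else s

theorem foldl_selStep_some (l : List (ℕ × Code)) (z : Code) (u : ℕ) :
    l.foldl selStep (some z, u) = (some z, u) := by
  induction l with
  | nil => rfl
  | cons q l ih =>
    rw [List.foldl_cons]
    have : selStep (some z, u) q = (some z, u) := by simp [selStep]
    rw [this, ih]

theorem sel_eq (l : List (ℕ × Code)) (u : ℕ) :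
    Sys.sel l u = (l.foldl selStep (none, u)).1 := by
  induction l generalizing u with
  | nil => rfl
  | cons q l ih =>
    obtain ⟨w, z⟩ := q
    rw [Sys.sel, List.foldl_cons]
    by_cases h : u < w
    · rw [if_pos h]
      have : selStep (none, u) (w, z) = (some z, u) := by simp [selStep, h]
      rw [this, foldl_selStep_some]
    · rw [if_neg h]
      have : selStep (none, u) (w, z) = (none, u - w) := by simp [selStep, h]
      rw [this, ih]

theorem selStep_bound (M : ℕ) (l0 : List (ℕ × Code)) (u0 : ℕ) (hM : sz l0 + 2 * sz u0 ≤ M) :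
    ∀ (l : List (ℕ × Code)) (s : Option Code × ℕ), (∀ q ∈ l, q ∈ l0) →
      (s.1 = none ∨ ∃ q ∈ l0, s.1 = some q.2) → s.2 ≤ u0 →
      sz (l.foldl selStep s) ≤ M + 5 := by
  have hs : ∀ s : Option Code × ℕ, (s.1 = none ∨ ∃ q ∈ l0, s.1 = some q.2) → s.2 ≤ u0 →
      sz s ≤ M + 5 := by
    rintro ⟨s1, s2⟩ h1 h2
    have h3 := sz_nat_mono_le h2
    rw [sz_pair]
    simp only at h1 h2 h3
    have h4 := sz_pos l0
    rcases h1 with rfl | ⟨q, hq, rfl⟩
    · rw [sz_none]; omega
    · have h5 := sz_le_of_mem hq
      have h6 : sz q = sz q.1 + sz q.2 + 1 := sz_pair q.1 q.2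
      rw [sz_some]
      omega
  intro l
  induction l with
  | nil => intro s _ h1 h2; exact hs s h1 h2
  | cons q l ih =>
    intro s hl h1 h2
    rw [List.foldl_cons]
    refine ih _ (fun q hq => hl q (List.mem_cons_of_mem _ hq)) ?_ ?_
    · unfold selStep
      split_ifs with h3 h4
      · exact Or.inr ⟨q, hl q (by simp), rfl⟩
      · exact Or.inl rfl
      · exact h1
    · unfold selStep
      split_ifs with h3 h4
      · exact h2
      · exact (Nat.sub_le _ _).trans h2
      · exact h2

theorem poly_sel {l : α → List (ℕ × Code)} {u : α → ℕ} (hl : Poly l) (hu : Poly u) :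
    Poly (fun a => Sys.sel (l a) (u a)) := by
  obtain ⟨r, hr⟩ := hl.sz_le
  obtain ⟨r', hr'⟩ := hu.sz_le
  have hstep : Poly (fun p : α × (Option Code × ℕ) × (ℕ × Code) => selStep p.2.1 p.2.2) := by
    unfold selStep
    fun_prop
  have h := Poly.foldl (l := l) (s := fun a => ((none : Option Code), u a))
    (F := fun _ s q => selStep s q) hl (Poly.pair (Poly.const _) hu) hstep
    (r + Polynomial.C 2 * r' + Polynomial.C 5) (fun a k _ => by
      refine (selStep_bound _ (l a) (u a) le_rfl _ _ (fun q hq => List.mem_of_mem_take hq)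
        (Or.inl rfl) le_rfl).trans ?_
      have h1 := hr a
      have h2 := hr' a
      simp only [Polynomial.eval_add, Polynomial.eval_mul, Polynomial.eval_C]
      omega)
  exact (Poly.fst h).congr fun a => by rw [sel_eq]

theorem poly_pick {B : α → ℕ} {l : α → List (ℕ × Code)} {t : α → List Bool} (hB : UPoly B)
    (hl : Poly l) (ht : Poly t) : Poly (fun a => (Sys.pick (l a)).run (B a) (t a)) := by
  have h : Poly (fun a => if Sys.total (l a) = 0 then ((none : Option Code), t a) else
      (Sys.sel (l a) (Prog.bval ((t a).take (B a)) * (Sys.total (l a) - 1 + 1) / 2 ^ (B a)),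
        (t a).drop (B a))) := by
    refine Poly.ite (Poly.decide_eq (poly_total hl) (Poly.const 0)) (Poly.pair (Poly.const _) ht)
      (Poly.pair (poly_sel hl (poly_draw hB (Poly.sub (poly_total hl) (Poly.const 1)) ht))
        (poly_drop ht hB.toPoly))
  refine h.congr fun a => ?_
  unfold Sys.pick
  split_ifs
  · rfl
  · rw [run_draw, run_ret]

theorem poly_particle (hcand : Poly (fun p : Code × Code => candC k p.1 p.2)) {c : α → Ctx}
    {p1 p2 : α → Pl Code} {t : α → List Bool} (hc : Poly c) (hp1 : Poly p1) (hp2 : Poly p2)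
    (ht : Poly t) :
    Poly (fun a => ((sy k PN (c a)).particle (p1 a) (p2 a)).run (c a).2.length (t a)) := by
  have h := poly_pick (uPoly_B hc) (poly_cs (PN := PN) (c := c) hcand hp1 hp2
    (Poly.add (poly_draw (uPoly_B hc) (Poly.sub (uPoly_n hc).toPoly (Poly.const 1)) ht)
      (Poly.const 1))) (poly_drop ht (uPoly_B hc).toPoly)
  exact h.congr fun a => rfl

theorem poly_mkp (hcand : Poly (fun p : Code × Code => candC k p.1 p.2)) {c : α → Ctx}
    {p1 p2 : α → Pl Code} {l : α → List (Option Code)} (hc : Poly c) (hp1 : Poly p1)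
    (hp2 : Poly p2) (hl : Poly l) :
    Poly (fun a => (sy k PN (c a)).mkp (p1 a) (p2 a) (l a)) := by
  refine Poly.pair (Poly.mul (Poly.mul (uPoly_N PN hc).toPoly (Poly.fst hp1)) (Poly.fst hp2))
    (Poly.pair ?_ hl)
  refine Poly.map (F := fun a m => (c a).1.length * Sys.total ((sy k PN (c a)).cs (p1 a) (p2 a) m))
    (((uPoly_n hc).add (UPoly.const 1)).range) ?_
  exact Poly.mul ((uPoly_n hc).toPoly.comp (Poly.fst Poly.id)) (poly_total
    (poly_cs (α := α × ℕ) (c := fun q => c q.1) hcand (hp1.comp (Poly.fst Poly.id))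
      (hp2.comp (Poly.fst Poly.id)) (Poly.snd Poly.id)))

end Sys

end Pool.Agent.NPC.LT.Samp
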