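import Pool.Agent.W903.LT.Level

/-!
# The whole sampler is polynomial-time computable
-/

namespace Pool.Agent.NPC.LT.Samp

open Pool.Agent.W955.LT Pool.Agent.NPC.W903

/-! ### The number of levels -/

theorem lev_le_one {m : ℕ} (h : m ≤ 1) : lev m = 0 := by rw [lev, dif_pos h]

theorem lev_rec {m : ℕ} (h : ¬ m ≤ 1) : lev m = 1 + lev ((6 * m + 1) / 7) := by
  conv_lhs => rw [lev]
  rw [dif_neg h]

theorem lev_le (m : ℕ) : lev m ≤ m := by
  induction m using Nat.strong_induction_on with
  | _ m ih =>
    by_cases h : m ≤ 1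
    · rw [lev_le_one h]; omega
    · rw [lev_rec h]
      have := ih ((6 * m + 1) / 7) (by omega)
      omega

/-- The step of the computation of the number of levels. -/
def levStep (s : ℕ × ℕ) : ℕ × ℕ := if s.1 ≤ 1 then s else ((6 * s.1 + 1) / 7, s.2 + 1)

theorem levStep_iterate : ∀ (j m c : ℕ), m ≤ j → (levStep^[j] (m, c)).2 = c + lev m
  | 0, m, c, h => by
    obtain rfl : m = 0 := by omega
    rw [lev_le_one (by omega)]; rfl
  | j + 1, m, c, h => by
    rw [Function.iterate_succ_apply]
    by_cases hm : m ≤ 1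
    · have h1 : levStep (m, c) = (m, c) := by simp [levStep, hm]
      have h2 : ∀ j, levStep^[j] (m, c) = (m, c) := by
        intro j
        induction j with
        | zero => rfl
        | succ j ih => rw [Function.iterate_succ_apply, h1, ih]
      rw [h1, h2, lev_le_one hm, Nat.add_zero]
    · have h1 : levStep (m, c) = ((6 * m + 1) / 7, c + 1) := by simp [levStep, hm]
      rw [h1, levStep_iterate j _ _ (by omega), lev_rec hm]
      omega

theorem levStep_bound (M : ℕ) : ∀ (j : ℕ) (s : ℕ × ℕ), s.1 ≤ M → s.2 + j ≤ M →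
    (levStep^[j] s).1 ≤ M ∧ (levStep^[j] s).2 ≤ M
  | 0, s, h1, h2 => ⟨h1, by simpa using h2⟩
  | j + 1, s, h1, h2 => by
    rw [Function.iterate_succ_apply]
    refine levStep_bound M j _ ?_ ?_
    · unfold levStep
      split_ifs with h
      · exact h1
      · simp only; omega
    · unfold levStep
      split_ifs with h
      · omega
      · simp only; omega

theorem poly_lev {α : Type} [TEnc α] {n : α → ℕ} (hn : UPoly n) : Poly (fun a => lev (n a)) := by
  obtain ⟨r, hr⟩ := hn.sz_le
  have hstep : Poly (fun p : α × ℕ × ℕ => levStep p.2) := by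
    unfold levStep
    exact Poly.ite (Poly.decide_le (Poly.fst (Poly.snd Poly.id)) (Poly.const 1))
      (Poly.snd Poly.id) (Poly.pair (Poly.div (Poly.add (Poly.mul (Poly.const 6)
        (Poly.fst (Poly.snd Poly.id))) (Poly.const 1)) (Poly.const 7))
        (Poly.add (Poly.snd (Poly.snd Poly.id)) (Poly.const 1)))
  have h := poly_iterate (s := fun a => (n a, 0)) (F := fun _ s => levStep s) hn
    (Poly.pair hn.toPoly (Poly.const 0)) hstep (Polynomial.C 10 * r + Polynomial.C 10)
    (fun a j hj => by
      obtain ⟨h1, h2⟩ := levStep_bound (n a) j (n a, 0) le_rfl (by simpa using hj)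
      have h3 := hr a
      have h4 := length_lt_sz (List.replicate (n a) ())
      rw [List.length_replicate] at h4
      have h5 : ∀ m, m ≤ n a → sz m ≤ 4 * n a + 1 := fun m hm =>
        (sz_nat_le m).trans (by
          have := Poly.size_le_self m
          omega)
      have h6 := h5 _ h1
      have h7 := h5 _ h2
      have h8 : sz (levStep^[j] (n a, 0)) = sz (levStep^[j] (n a, 0)).1 +
        sz (levStep^[j] (n a, 0)).2 + 1 := sz_pair _ _
      change sz (levStep^[j] (n a, 0)) ≤ _
      simp only [Polynomial.eval_add, Polynomial.eval_mul, Polynomial.eval_C]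
      omega)
  exact (Poly.snd h).congr fun a => by
    rw [levStep_iterate _ _ _ le_rfl, Nat.zero_add]

theorem uPoly_lev {α : Type} [TEnc α] {n : α → ℕ} (hn : UPoly n) : UPoly (fun a => lev (n a)) :=
  UPoly.of_le (poly_lev hn) hn fun a => lev_le _

/-! ### Levels of components -/

section Levels

variable {O : Type} (S : Sys O)

/-- The next level. -/
def lvStep (st : List (List (Option O)) × List (Option O)) :
    List (List (Option O)) × List (Option O) := (st.2 :: st.1, S.kdL st.2)

theorem kdL_length (xs : List (Option O)) : (S.kdL xs).length = 2 * xs.length := by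
  induction xs with
  | nil => rfl
  | cons x xs ih =>
    rw [Sys.kdL, List.flatMap_cons, List.length_append]
    change _ + (S.kdL xs).length = _
    rw [ih]
    simp
    omega

theorem kdL_mem {P : O → Prop} (hk : ∀ x, P x → ∀ a, (S.kids x).1 = some a ∨
    (S.kids x).2 = some a → P a) {xs : List (Option O)} (h : ∀ o, some o ∈ xs → P o) :
    ∀ o, some o ∈ S.kdL xs → P o := by
  intro o ho
  rw [Sys.kdL, List.mem_flatMap] at ho
  obtain ⟨x, hx, ho⟩ := ho
  cases x with
  | none => simp [Sys.kd] at ho
  | some x =>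
    refine hk x (h x hx) o ?_
    simp only [Sys.kd, List.mem_cons, List.not_mem_nil, or_false] at ho
    exact ho.imp Eq.symm Eq.symm

theorem lv_inv {P : O → Prop} (hk : ∀ x, P x → ∀ a, (S.kids x).1 = some a ∨
    (S.kids x).2 = some a → P a) {xs : List (Option O)} (h : ∀ o, some o ∈ xs → P o) :
    ∀ (j : ℕ), ((lvStep S)^[j] ([], xs)).2.length = 2 ^ j * xs.length ∧
      (∀ o, some o ∈ ((lvStep S)^[j] ([], xs)).2 → P o) ∧
      ((lvStep S)^[j] ([], xs)).1.length = j ∧
      ∀ L ∈ ((lvStep S)^[j] ([], xs)).1, L.length ≤ 2 ^ j * xs.length ∧ ∀ o, some o ∈ L → P o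
  | 0 => ⟨by simp, by simpa using h, rfl, by simp⟩
  | j + 1 => by
    obtain ⟨h1, h2, h3, h4⟩ := lv_inv hk h j
    rw [Function.iterate_succ_apply']
    have hp : 2 ^ j * xs.length ≤ 2 ^ (j + 1) * xs.length :=
      Nat.mul_le_mul_right _ (Nat.pow_le_pow_right (by norm_num) (by omega))
    refine ⟨?_, ?_, ?_, ?_⟩
    · change (S.kdL _).length = _
      rw [kdL_length, h1, pow_succ]; ring
    · exact kdL_mem S hk h2
    · change (_ :: _).length = _
      rw [List.length_cons, h3]
    · intro L hL
      rcases List.mem_cons.1 hL with rfl | hL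
      · exact ⟨by rw [h1]; exact hp, h2⟩
      · exact ⟨(h4 L hL).1.trans hp, (h4 L hL).2⟩

/-- Combine a level. -/
def lvFold (B : ℕ) (st : List (Pl O) × List Bool) (L : List (Option O)) :
    List (Pl O) × List Bool := (S.combL st.1 L).run B st.2

theorem fold_levels (B : ℕ) (t : List Bool) : ∀ (r : ℕ) (xs : List (Option O))
    (done : List (List (Option O))),
    ((lvStep S)^[r] (done, xs)).1.foldl (lvFold S B)
      (((lvStep S)^[r] (done, xs)).2.map (fun _ => S.base), t) =
    done.foldl (lvFold S B) ((S.poolL r xs).run B t)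
  | 0, xs, done => rfl
  | r + 1, xs, done => by
    rw [Function.iterate_succ_apply]
    have h1 : lvStep S (done, xs) = (xs :: done, S.kdL xs) := rfl
    rw [h1, fold_levels B t r (S.kdL xs) (xs :: done), List.foldl_cons]
    congr 1
    rw [Sys.poolL, run_bind]
    rfl

theorem poolL_levels (B : ℕ) (t : List Bool) (r : ℕ) (xs : List (Option O)) :
    ((lvStep S)^[r] ([], xs)).1.foldl (lvFold S B)
      (((lvStep S)^[r] ([], xs)).2.map (fun _ => S.base), t) = (S.poolL r xs).run B t :=
  fold_levels S B t r xs []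

end Levels

end Pool.Agent.NPC.LT.Samp
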